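import Pool.Agent.HSS.Defs

/-! # Project HSS, row HSS-2: the weights of a product -/

set_option autoImplicit false

namespace Pool.Agent.HSS

/-- (telescoping: `om (p ^ E) (p ^ e) = p ^ (-e) - p ^ (-e-1)` for `e < E`) -/
theorem om_tail (p E s : ℕ) (hp : p.Prime) (hs : s ≤ E) :
    ∑ e ∈ Finset.Icc s E, om (p ^ E) (p ^ e) = 1 / (p : ℝ) ^ s := by
  have hp0 : (0 : ℝ) < p := by exact_mod_cast hp.pos
  obtain ⟨j, rfl⟩ : ∃ j, E = s + j := ⟨E - s, by omega⟩
  clear hs
  induction j generalizing s with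
  | zero =>
    simp only [Nat.add_zero, Finset.Icc_self, Finset.sum_singleton]
    unfold om
    rw [Nat.div_self (pow_pos hp.pos s), Nat.totient_one]
    push_cast
    rfl
  | succ j ih =>
    have h1 : Finset.Icc s (s + (j + 1)) = insert s (Finset.Icc (s + 1) (s + 1 + j)) := by
      ext x
      simp only [Finset.mem_Icc, Finset.mem_insert]
      omega
    rw [h1, Finset.sum_insert (by simp)]
    have h2 : s + (j + 1) = s + 1 + j := by omega
    rw [h2, ih (s + 1)]
    unfold om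
    have h3 : p ^ (s + 1 + j) / p ^ s = p ^ (j + 1) := by
      rw [Nat.pow_div (by omega) hp.pos]
      congr 1
      omega
    rw [h3, Nat.totient_prime_pow_succ hp]
    have h4 : ((p - 1 : ℕ) : ℝ) = (p : ℝ) - 1 := by
      rw [Nat.cast_sub hp.one_lt.le]
      simp
    push_cast
    rw [h4]
    field_simp
    ring

theorem om_mul (p E M' e d : ℕ) (hp : p.Prime) (hM' : M' ≠ 0) (hpM : ¬ p ∣ M') (he : e ≤ E)
    (hd : d ∣ M') : om (p ^ E * M') (p ^ e * d) = om (p ^ E) (p ^ e) * om M' d := by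
  have hp0 : (0 : ℝ) < p := by exact_mod_cast hp.pos
  have hM0 : (M' : ℝ) ≠ 0 := by exact_mod_cast hM'
  unfold om
  have h1 : p ^ E * M' / (p ^ e * d) = (p ^ E / p ^ e) * (M' / d) :=
    (Nat.div_mul_div_comm (pow_dvd_pow p he) hd).symm
  have h2 : (p ^ E / p ^ e).Coprime (M' / d) := by
    rw [Nat.pow_div he hp.pos]
    refine Nat.Coprime.pow_left _ ?_
    rw [Nat.Prime.coprime_iff_not_dvd hp]
    intro h
    exact hpM (h.trans (Nat.div_dvd_of_dvd hd))
  rw [h1, Nat.totient_mul h2]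
  push_cast
  rw [mul_div_mul_comm]

open Classical in
theorem del_mul (p E M' : ℕ) (hp : p.Prime) (hM' : M' ≠ 0) (hpM : ¬ p ∣ M') (Q : Set ℕ) :
    del (p ^ E * M') Q = ∑ d ∈ M'.divisors, om M' d * ∑ e ∈ Finset.range (E + 1),
      (if ∃ q ∈ Q, q ∣ p ^ e * d then om (p ^ E) (p ^ e) else 0) := by
  have hpE : p ^ E ≠ 0 := (pow_pos hp.pos E).ne'
  unfold del
  rw [Finset.sum_filter]
  have h1 : ∑ d ∈ M'.divisors, om M' d * ∑ e ∈ Finset.range (E + 1),
      (if ∃ q ∈ Q, q ∣ p ^ e * d then om (p ^ E) (p ^ e) else 0) =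
      ∑ z ∈ M'.divisors ×ˢ Finset.range (E + 1),
        (if ∃ q ∈ Q, q ∣ p ^ z.2 * z.1 then om (p ^ E * M') (p ^ z.2 * z.1) else 0) := by
    rw [Finset.sum_product]
    refine Finset.sum_congr rfl (fun d hd => ?_)
    rw [Finset.mul_sum]
    refine Finset.sum_congr rfl (fun e he => ?_)
    rw [Finset.mem_range] at he
    split_ifs with h
    · rw [om_mul p E M' e d hp hM' hpM (by omega) (Nat.dvd_of_mem_divisors hd), mul_comm]
    · rw [mul_zero]
  rw [h1]
  symm
  refine Finset.sum_nbij (fun z => p ^ z.2 * z.1) ?_ ?_ ?_ ?_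
  · rintro ⟨d, e⟩ hz
    rw [Finset.mem_product, Finset.mem_range] at hz
    rw [Nat.mem_divisors]
    refine ⟨mul_dvd_mul (pow_dvd_pow p (by omega)) (Nat.dvd_of_mem_divisors hz.1), ?_⟩
    exact mul_ne_zero hpE hM'
  · rintro ⟨d, e⟩ hz ⟨d', e'⟩ hz' h
    rw [Finset.mem_coe, Finset.mem_product] at hz hz'
    simp only at h hz hz'
    have hd0 : ∀ d, d ∈ M'.divisors → d ≠ 0 ∧ d.factorization p = 0 := by
      intro d hd
      have h2 := Nat.dvd_of_mem_divisors hd
      exact ⟨Nat.pos_iff_ne_zero.mp (Nat.pos_of_dvd_of_pos h2 (Nat.pos_of_ne_zero hM')),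
        Nat.factorization_eq_zero_of_not_dvd (fun h3 => hpM (h3.trans h2))⟩
    have hf : ∀ d e, d ∈ M'.divisors → (p ^ e * d).factorization p = e := by
      intro d e hd
      rw [Nat.factorization_mul (pow_pos hp.pos e).ne' (hd0 d hd).1, hp.factorization_pow]
      simp [(hd0 d hd).2]
    have he : e = e' := by
      rw [← hf d e hz.1, h, hf d' e' hz'.1]
    subst he
    have hd : d = d' := Nat.eq_of_mul_eq_mul_left (pow_pos hp.pos e) h
    rw [hd]
  · intro x hx
    rw [Finset.mem_coe, Nat.mem_divisors] at hx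
    obtain ⟨y, z, hy, hz, rfl⟩ := (Nat.dvd_mul).mp hx.1
    obtain ⟨e, he, rfl⟩ := (Nat.dvd_prime_pow hp).mp hy
    refine ⟨(z, e), ?_, rfl⟩
    rw [Finset.mem_coe, Finset.mem_product, Nat.mem_divisors, Finset.mem_range]
    exact ⟨⟨hz, hM'⟩, by simp only; omega⟩
  · intro z _
    rfl

end Pool.Agent.HSS
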