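import Pool.Agent.HSS.Om
import Pool.Agent.HSS.Prd

/-! # Project HSS, row HSS-4: fibres over a quotient by a normal `p`-subgroup -/

set_option autoImplicit false

namespace Pool.Agent.HSS

/-- if a coset of `K` meets a coset of `N`, then the intersection has `|N| / [N : K ∩ N]`
elements -/
theorem h4_coset {Q : Type} [Group Q] [Finite Q] (N : Subgroup Q) [N.Normal] (K : Subgroup Q)
    (c : Q) (m : ℕ) (hK : K.relIndex N = m) (x : Q ⧸ N)
    (hx : (c : Q ⧸ N)⁻¹ * x ∈ K.map (QuotientGroup.mk' N)) (U : Set Q)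
    (hU : ∀ g, c⁻¹ * g ∈ K → g ∈ U) :
    Nat.card N ≤ {g : Q | g ∈ U ∧ (g : Q ⧸ N) = x}.ncard * m := by
  obtain ⟨k, hk, hkx⟩ := hx
  have hx2 : ((c * k : Q) : Q ⧸ N) = x := by
    rw [QuotientGroup.mk'_apply] at hkx
    rw [QuotientGroup.mk_mul, hkx, mul_inv_cancel_left]
  rw [← hK, ← (K.subgroupOf N).card_mul_index]
  refine Nat.mul_le_mul_right _ ?_
  rw [← Nat.card_coe_set_eq]
  refine Nat.card_le_card_of_injective
    (fun n : K.subgroupOf N => (⟨c * k * ((n : N) : Q), ?_, ?_⟩ :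
      {g : Q | g ∈ U ∧ (g : Q ⧸ N) = x})) ?_
  · apply hU
    rw [mul_assoc, inv_mul_cancel_left]
    exact K.mul_mem hk (Subgroup.mem_subgroupOf.mp n.2)
  · rw [QuotientGroup.mk_mul_of_mem _ (n : N).2]
    exact hx2
  · intro n n' h
    have h1 : c * k * ((n : N) : Q) = c * k * ((n' : N) : Q) := congrArg Subtype.val h
    exact Subtype.ext (Subtype.ext (mul_left_cancel h1))

/-- Let `U` be the set on the right. If the coset `x` of `N` meets the coset `c i * K i` then the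
intersection is a coset of `K i ⊓ N`, so `|U ∩ x| ≥ |N| p ^ (-α i)`; take the least `α i` and use
`om_tail`. Then sum over `x`. -/
theorem fibre {Q : Type} [Group Q] [Finite Q] (N : Subgroup Q) [N.Normal] {ι : Type} [Fintype ι]
    (K : ι → Subgroup Q) (c : ι → Q) (p E : ℕ) (hp : p.Prime) (α : ι → ℕ)
    (hα : ∀ i, (K i).relIndex N = p ^ α i) :
    ∑ t ∈ Finset.range (E + 1), om (p ^ E) (p ^ t) *
      mu {x : Q ⧸ N | ∃ i, α i ≤ t ∧ (c i : Q ⧸ N)⁻¹ * x ∈ (K i).map (QuotientGroup.mk' N)} ≤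
    mu {g : Q | ∃ i, (c i)⁻¹ * g ∈ K i} := by
  classical
  have _iQ : Fintype Q := Fintype.ofFinite Q
  have _iQN : Fintype (Q ⧸ N) := Fintype.ofFinite _
  obtain ⟨U, hU⟩ : ∃ U : Set Q, U = {g : Q | ∃ i, (c i)⁻¹ * g ∈ K i} := ⟨_, rfl⟩
  obtain ⟨X, hX⟩ : ∃ X : ℕ → Set (Q ⧸ N), X = fun t => {x : Q ⧸ N | ∃ i, α i ≤ t ∧
    (c i : Q ⧸ N)⁻¹ * x ∈ (K i).map (QuotientGroup.mk' N)} := ⟨_, rfl⟩
  have hXt : ∀ t, {x : Q ⧸ N | ∃ i, α i ≤ t ∧
    (c i : Q ⧸ N)⁻¹ * x ∈ (K i).map (QuotientGroup.mk' N)} = X t := fun t => by rw [hX]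
  have hN : (0 : ℝ) < Nat.card N := by exact_mod_cast Nat.card_pos
  have hQN : (0 : ℝ) < Nat.card (Q ⧸ N) := by exact_mod_cast Nat.card_pos
  have hp0 : (0 : ℝ) < p := by exact_mod_cast hp.pos
  have hp1 : (1 : ℝ) ≤ p := by exact_mod_cast hp.one_le
  -- one fibre
  have h1 : ∀ x : Q ⧸ N, ∑ t ∈ Finset.range (E + 1),
      (if x ∈ X t then om (p ^ E) (p ^ t) else 0) ≤
        ({g : Q | g ∈ U ∧ (g : Q ⧸ N) = x}.ncard : ℝ) / Nat.card N := by
    intro x
    by_cases hx : ∃ t, t ≤ E ∧ x ∈ X t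
    · have hmin := Nat.find_spec hx
      have hmin' := fun t ht => Nat.find_min (m := t) hx ht
      generalize Nat.find hx = t0 at hmin hmin'
      obtain ⟨ht0, hxt0⟩ := hmin
      rw [hX] at hxt0
      obtain ⟨i, hi, hxi⟩ := hxt0
      have h2 : ∑ t ∈ Finset.range (E + 1), (if x ∈ X t then om (p ^ E) (p ^ t) else 0) =
          1 / (p : ℝ) ^ t0 := by
        rw [← om_tail p E t0 hp ht0, ← Finset.sum_filter]
        refine Finset.sum_congr ?_ fun _ _ => rfl
        ext t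
        rw [Finset.mem_filter, Finset.mem_range, Finset.mem_Icc]
        constructor
        · rintro ⟨h3, h4⟩
          refine ⟨?_, by omega⟩
          by_contra h5
          exact hmin' t (by omega) ⟨by omega, h4⟩
        · rintro ⟨h3, h4⟩
          refine ⟨by omega, ?_⟩
          rw [hX]
          exact ⟨i, hi.trans h3, hxi⟩
      rw [h2]
      have h3 := h4_coset N (K i) (c i) _ (hα i) x hxi U (fun g hg => by
        rw [hU]
        exact ⟨i, hg⟩)
      have h4 : (Nat.card N : ℝ) ≤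
          ({g : Q | g ∈ U ∧ (g : Q ⧸ N) = x}.ncard : ℝ) * (p : ℝ) ^ α i := by
        exact_mod_cast h3
      rw [div_le_div_iff₀ (by positivity) hN, one_mul]
      refine h4.trans (mul_le_mul_of_nonneg_left ?_ (by positivity))
      exact pow_le_pow_right₀ hp1 hi
    · have h2 : ∑ t ∈ Finset.range (E + 1), (if x ∈ X t then om (p ^ E) (p ^ t) else 0) = 0 := by
        refine Finset.sum_eq_zero fun t ht => ?_
        rw [if_neg]
        intro h3
        exact hx ⟨t, by rw [Finset.mem_range] at ht; omega, h3⟩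
      rw [h2]
      positivity
  -- the sum over the fibres
  have h2 : (U.ncard : ℝ) = ∑ x : Q ⧸ N, ({g : Q | g ∈ U ∧ (g : Q ⧸ N) = x}.ncard : ℝ) := by
    have h3 := Finset.card_eq_sum_card_fiberwise (f := fun g : Q => (g : Q ⧸ N))
      (s := U.toFinset) (t := Finset.univ) (fun _ _ => Finset.mem_coe.mpr (Finset.mem_univ _))
    rw [Set.ncard_eq_toFinset_card', h3]
    push_cast
    refine Finset.sum_congr rfl fun x _ => ?_
    rw [Set.ncard_eq_toFinset_card']
    congr 2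
    ext g
    simp
  have h3 : ∀ t, mu (X t) = (∑ x : Q ⧸ N, (if x ∈ X t then (1 : ℝ) else 0)) /
      Nat.card (Q ⧸ N) := by
    intro t
    unfold mu
    rw [Set.ncard_eq_toFinset_card', Finset.sum_boole]
    congr 3
    ext x
    simp
  have h4 : mu U = (∑ x : Q ⧸ N, ({g : Q | g ∈ U ∧ (g : Q ⧸ N) = x}.ncard : ℝ) / Nat.card N) /
      Nat.card (Q ⧸ N) := by
    unfold mu
    rw [h2, ← Finset.sum_div, N.card_eq_card_quotient_mul_card_subgroup, div_div]
    push_cast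
    rw [mul_comm]
  rw [← hU, h4]
  simp only [hXt, h3]
  have h5 : ∑ t ∈ Finset.range (E + 1), om (p ^ E) (p ^ t) *
      ((∑ x : Q ⧸ N, (if x ∈ X t then (1 : ℝ) else 0)) / Nat.card (Q ⧸ N)) =
      (∑ x : Q ⧸ N, ∑ t ∈ Finset.range (E + 1),
        (if x ∈ X t then om (p ^ E) (p ^ t) else 0)) / Nat.card (Q ⧸ N) := by
    rw [Finset.sum_comm, Finset.sum_div]
    refine Finset.sum_congr rfl fun t _ => ?_
    rw [← mul_div_assoc, Finset.mul_sum]
    congr 1
    refine Finset.sum_congr rfl fun x _ => ?_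
    split_ifs <;> simp
  rw [h5]
  exact div_le_div_of_nonneg_right (Finset.sum_le_sum fun x _ => h1 x) hQN.le

end Pool.Agent.HSS
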