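import Pool.Agent.HSS.Defs

/-! # Project HSS, row HSS-5: minimal normal subgroups of solvable groups -/

set_option autoImplicit false

namespace Pool.Agent.HSS

/-- The last nontrivial term `A` of the derived series is abelian and normal; for a prime `p`
dividing its order the elements `x ∈ A` with `x ^ p = 1` form a nontrivial normal subgroup; take a
minimal nontrivial normal subgroup inside it. -/
theorem exists_min_normal (G : Type) [Group G] [Finite G] [Group.IsSolvable G] [Nontrivial G] :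
    ∃ (p : ℕ) (N : Subgroup G), p.Prime ∧ N.Normal ∧ N ≠ ⊥ ∧ IsPGroup p N ∧
      (∀ x ∈ N, ∀ z ∈ N, x * z = z * x) ∧
      ∀ L : Subgroup G, L.Normal → L ≤ N → L = ⊥ ∨ L = N := by
  classical
  have hex : ∃ n : ℕ, derivedSeries G n = ⊥ := Group.IsSolvable.solvable
  obtain ⟨n, hn, hmin⟩ : ∃ n : ℕ, derivedSeries G (n + 1) = ⊥ ∧ derivedSeries G n ≠ ⊥ := by
    have h1 := Nat.find_spec hex
    have h0 : Nat.find hex ≠ 0 := by
      intro h0
      rw [h0, derivedSeries_zero] at h1
      exact absurd h1 (by simp)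
    obtain ⟨m, hm⟩ := Nat.exists_eq_succ_of_ne_zero h0
    refine ⟨m, ?_, ?_⟩
    · rw [hm] at h1
      exact h1
    · exact Nat.find_min hex (by omega)
  set A : Subgroup G := derivedSeries G n with hA
  have hAn : A.Normal := by
    rw [hA]
    infer_instance
  have hcomm : ∀ x ∈ A, ∀ z ∈ A, x * z = z * x := by
    intro x hx z hz
    rw [derivedSeries_succ] at hn
    have h1 := Subgroup.commutator_mem_commutator hx hz
    rw [hA, hn, Subgroup.mem_bot] at h1
    exact (commutatorElement_eq_one_iff_mul_comm).mp h1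
  have hcard : Nat.card A ≠ 1 := by
    intro h
    apply hmin
    exact Subgroup.eq_bot_of_card_eq A h
  set p := (Nat.card A).minFac with hp
  have hpp : p.Prime := Nat.minFac_prime hcard
  have hpf : Fact p.Prime := ⟨hpp⟩
  obtain ⟨x0, hx0⟩ := exists_prime_orderOf_dvd_card' (G := A) p (Nat.minFac_dvd _)
  let B : Subgroup G :=
    { carrier := {x | x ∈ A ∧ x ^ p = 1}
      one_mem' := ⟨A.one_mem, one_pow p⟩
      mul_mem' := by
        rintro a b ⟨ha, ha1⟩ ⟨hb, hb1⟩
        refine ⟨A.mul_mem ha hb, ?_⟩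
        have hc : Commute a b := hcomm a ha b hb
        rw [hc.mul_pow, ha1, hb1, one_mul]
      inv_mem' := by
        rintro a ⟨ha, ha1⟩
        refine ⟨A.inv_mem ha, ?_⟩
        rw [inv_pow, ha1, inv_one] }
  have hBmem : ∀ x, x ∈ B ↔ x ∈ A ∧ x ^ p = 1 := fun x => Iff.rfl
  have hBn : B.Normal := by
    constructor
    intro a ha g
    rw [hBmem] at ha ⊢
    refine ⟨hAn.conj_mem a ha.1 g, ?_⟩
    rw [conj_pow, ha.2]
    group
  have hB : B ≠ ⊥ := by
    intro h
    have h1 : (x0 : G) ∈ B := by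
      rw [hBmem]
      refine ⟨x0.2, ?_⟩
      have h2 : x0 ^ p = 1 := by
        rw [← hx0]
        exact pow_orderOf_eq_one x0
      exact_mod_cast congrArg (Subtype.val) h2
    rw [h, Subgroup.mem_bot] at h1
    have h3 : x0 = 1 := Subtype.ext h1
    rw [h3, orderOf_one] at hx0
    exact hpp.one_lt.ne hx0
  obtain ⟨N, ⟨hN1, hN2, hN3⟩, hN4⟩ := WellFounded.has_min
    (wellFounded_lt : WellFounded ((· < ·) : Subgroup G → Subgroup G → Prop))
    {N : Subgroup G | N.Normal ∧ N ≠ ⊥ ∧ N ≤ B} ⟨B, hBn, hB, le_rfl⟩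
  refine ⟨p, N, hpp, hN1, hN2, ?_, ?_, ?_⟩
  · intro g
    refine ⟨1, ?_⟩
    rw [pow_one]
    apply Subtype.ext
    have h1 := (hBmem g.1).mp (hN3 g.2)
    simpa using h1.2
  · intro x hx z hz
    exact hcomm x ((hBmem x).mp (hN3 hx)).1 z ((hBmem z).mp (hN3 hz)).1
  · intro L hL hLN
    by_cases h : L = ⊥
    · exact Or.inl h
    · right
      by_contra hne
      exact hN4 L ⟨hL, h, hLN.trans hN3⟩ (lt_of_le_of_ne hLN hne)

end Pool.Agent.HSS
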