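import Pool.Agent.HSS.Comb
import Pool.Agent.HSS.Fib
import Pool.Agent.HSS.MinN
import Pool.Agent.HL.Wts

/-! # Project HSS, row HSS-6: Rogers' inequality for solvable groups -/

set_option autoImplicit false

namespace Pool.Agent.HSS

theorem rog_mu_nonneg {G : Type} (S : Set G) : 0 ≤ mu S := by
  unfold mu
  positivity

theorem rog_aux (n : ℕ) : ∀ (Q : Type) [Group Q] [Finite Q] [Group.IsSolvable Q],
    Nat.card Q = n → ∀ (ι : Type) [Fintype ι] (K : ι → Subgroup Q) (c : ι → Q) (M : ℕ),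
    M ≠ 0 → del M {x | ∃ i, x = (K i).index} ≤ mu {g : Q | ∃ i, (c i)⁻¹ * g ∈ K i} := by
  classical
  induction n using Nat.strong_induction_on with
  | _ n ih =>
  intro Q _ _ _ hcard ι _ K c M hM
  rcases subsingleton_or_nontrivial Q with hsub | hnt
  · rcases isEmpty_or_nonempty ι with hι | ⟨⟨i0⟩⟩
    · have h1 : {x | ∃ i, x = (K i).index} = (∅ : Set ℕ) := by
        ext x
        simp
      rw [h1, del_empty]
      exact rog_mu_nonneg _
    · have h1 : (K i0).index = 1 := by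
        rw [Subgroup.index_eq_one]
        exact Subsingleton.elim _ _
      have h2 : {g : Q | ∃ i, (c i)⁻¹ * g ∈ K i} = Set.univ := by
        ext g
        refine ⟨fun _ => Set.mem_univ _, fun _ => ⟨i0, ?_⟩⟩
        have : (c i0)⁻¹ * g = 1 := Subsingleton.elim _ _
        rw [this]
        exact (K i0).one_mem
      have h3 : (1 : ℕ) ∈ {x | ∃ i, x = (K i).index} := ⟨i0, h1.symm⟩
      rw [del_one M hM _ h3, h2]
      unfold mu
      rw [Set.ncard_univ, div_self]
      exact_mod_cast Nat.card_pos.ne'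
  obtain ⟨p, N, hp, hN, hN0, hNp, -, -⟩ := exists_min_normal Q
  have : Fact p.Prime := ⟨hp⟩
  -- the exponents
  have hα : ∀ i, ∃ α, (K i).relIndex N = p ^ α := fun i => IsPGroup.index hNp _
  choose α hα using hα
  obtain ⟨E, M', hpM, rfl⟩ := Nat.exists_eq_pow_mul_and_not_dvd hM p hp.ne_one
  have hM' : M' ≠ 0 := by
    rintro rfl
    exact hpM (dvd_zero p)
  let u : ι → ℕ := fun i => ((K i).map (QuotientGroup.mk' N)).index
  have hu : ∀ i, (K i).index = p ^ α i * u i := fun i => by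
    have h1 : u i = (K i ⊔ N).index := by
      change ((K i).map (QuotientGroup.mk' N)).index = _
      rw [Subgroup.index_map, QuotientGroup.ker_mk', QuotientGroup.range_mk', Subgroup.index_top,
        mul_one]
    rw [h1, ← hα i, mul_comm]
    exact Pool.Agent.HL.index_mul (K i) N
  -- the quotient
  have hlt : Nat.card (Q ⧸ N) < n := by
    have h1 := Subgroup.card_eq_card_quotient_mul_card_subgroup N
    have h2 : 1 < Nat.card N := by
      rw [Subgroup.one_lt_card_iff_ne_bot]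
      exact hN0
    have h3 : 0 < Nat.card (Q ⧸ N) := Nat.card_pos
    rw [← hcard, h1]
    exact lt_mul_of_one_lt_right h3 h2
  have hset : {x | ∃ i, x = (K i).index} = {x | ∃ i, x = p ^ α i * u i} := by
    ext x
    simp only [hu]
  rw [hset]
  refine (comb p E M' hp hM' hpM α u).trans (le_trans ?_ (fibre N K c p E hp α hα))
  refine Finset.sum_le_sum fun t _ => ?_
  refine mul_le_mul_of_nonneg_left ?_ (om_nonneg _ _)
  have h1 := ih _ hlt (Q ⧸ N) rfl {i // α i ≤ t}
    (fun i => (K i.1).map (QuotientGroup.mk' N)) (fun i => (c i.1 : Q ⧸ N)) (p ^ E * M')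
    (mul_ne_zero (pow_ne_zero _ hp.ne_zero) hM')
  have h2 : {x | ∃ i : {i // α i ≤ t}, x = ((K i.1).map (QuotientGroup.mk' N)).index} =
      {x | ∃ i, α i ≤ t ∧ x = u i} := by
    ext x
    constructor
    · rintro ⟨i, hi⟩
      exact ⟨i.1, i.2, hi⟩
    · rintro ⟨i, hi, hx⟩
      exact ⟨⟨i, hi⟩, hx⟩
  have h3 : {x : Q ⧸ N | ∃ i : {i // α i ≤ t}, (c i.1 : Q ⧸ N)⁻¹ * x ∈
      (K i.1).map (QuotientGroup.mk' N)} =
      {x : Q ⧸ N | ∃ i, α i ≤ t ∧ (c i : Q ⧸ N)⁻¹ * x ∈ (K i).map (QuotientGroup.mk' N)} := by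
    ext x
    constructor
    · rintro ⟨i, hi⟩
      exact ⟨i.1, i.2, hi⟩
    · rintro ⟨i, hi, hx⟩
      exact ⟨⟨i, hi⟩, hx⟩
  rw [h2, h3] at h1
  exact h1

/-- Strong induction on the order. `Q` trivial: `del_one` or `del_empty`. Otherwise take `N` from
`exists_min_normal`, `(K i).relIndex N = p ^ α i` (a divisor of the order of the `p`-group `N`),
`u i = (K i ⊔ N).index`, the index of the image of `K i` in `Q ⧸ N`, `(K i).index = p ^ α i * u i`
(see `Pool.Agent.HL.index_mul`), `M = p ^ E * M'`; then `comb`, the induction hypothesis for `Q ⧸ N`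
and the subfamily `{i // α i ≤ t}`, and `fibre`. -/
theorem rogers (Q : Type) [Group Q] [Finite Q] [Group.IsSolvable Q] {ι : Type} [Fintype ι]
    (K : ι → Subgroup Q) (c : ι → Q) (M : ℕ) (hM : M ≠ 0) :
    del M {x | ∃ i, x = (K i).index} ≤ mu {g : Q | ∃ i, (c i)⁻¹ * g ∈ K i} :=
  rog_aux _ Q rfl ι K c M hM

end Pool.Agent.HSS
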