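import Pool.Agent.HSS.Om

/-! # Project HSS, row HSS-7: sums of inverses of multiples -/

set_option autoImplicit false

namespace Pool.Agent.HSS

private theorem kap_pos (s : Finset ℕ) (hs : ∀ p ∈ s, p.Prime) : 1 ≤ kap s := by
  have h : ∀ p ∈ s, (1 : ℝ) ≤ (p : ℝ) / ((p : ℝ) - 1) := by
    intro p hp
    have h2 : (2 : ℝ) ≤ (p : ℝ) := by exact_mod_cast (hs p hp).two_le
    rw [le_div_iff₀ (by linarith)]
    linarith
  unfold kap
  calc (1 : ℝ) = ∏ _p ∈ s, (1 : ℝ) := by simp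
    _ ≤ _ := Finset.prod_le_prod (fun _ _ => by norm_num) h

private theorem om_eq (s : Finset ℕ) (M a : ℕ) (hM : M ≠ 0) (hs : ∀ p ∈ s, p.Prime)
    (hMs : M.primeFactors ⊆ s) (ha : a * ∏ p ∈ s, p ∣ M) : kap s * om M a = 1 / (a : ℝ) := by
  have ha0 : a ≠ 0 := by
    rintro rfl
    rw [zero_mul] at ha
    exact hM (zero_dvd_iff.1 ha)
  have haM : a ∣ M := (Dvd.intro _ rfl).trans ha
  obtain ⟨b, rfl⟩ := haM
  have hb0 : b ≠ 0 := by
    rintro rfl
    exact hM (mul_zero a)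
  have hb : a * b / a = b := Nat.mul_div_cancel_left b (Nat.pos_of_ne_zero ha0)
  have hPb : ∏ p ∈ s, p ∣ b := (Nat.mul_dvd_mul_iff_left (Nat.pos_of_ne_zero ha0)).1 ha
  have hpf : b.primeFactors = s := by
    apply Finset.Subset.antisymm
    · refine fun p hp => hMs ?_
      rw [Nat.primeFactors_mul ha0 hb0]
      exact Finset.mem_union_right _ hp
    · intro p hp
      exact Nat.mem_primeFactors.2 ⟨hs p hp, (Finset.dvd_prod_of_mem _ hp).trans hPb, hb0⟩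
  have htot := Nat.totient_mul_prod_primeFactors b
  rw [hpf] at htot
  have htotR : ((b.totient : ℕ) : ℝ) * ∏ p ∈ s, (p : ℝ) = (b : ℝ) * ∏ p ∈ s, ((p : ℝ) - 1) := by
    have h1 : (((b.totient * ∏ p ∈ s, p : ℕ)) : ℝ) = ((b * ∏ p ∈ s, (p - 1) : ℕ) : ℝ) := by
      rw [htot]
    rw [Nat.cast_mul, Nat.cast_mul, Nat.cast_prod, Nat.cast_prod] at h1
    rw [h1]
    congr 1
    refine Finset.prod_congr rfl fun p hp => ?_
    rw [Nat.cast_sub (hs p hp).one_le, Nat.cast_one]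
  have hP0 : ∏ p ∈ s, (p : ℝ) ≠ 0 := Finset.prod_ne_zero_iff.2 fun p hp => by
    exact_mod_cast (hs p hp).ne_zero
  have hP1 : ∏ p ∈ s, ((p : ℝ) - 1) ≠ 0 := Finset.prod_ne_zero_iff.2 fun p hp => by
    have h2 : (2 : ℝ) ≤ (p : ℝ) := by exact_mod_cast (hs p hp).two_le
    intro h
    linarith
  have haR : (a : ℝ) ≠ 0 := by exact_mod_cast ha0
  have hbR : (b : ℝ) ≠ 0 := by exact_mod_cast hb0
  unfold kap om
  rw [hb, Finset.prod_div_distrib, Nat.cast_mul]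
  field_simp
  linear_combination htotR

/-- (if all primes of `M` are in `s` and `a * ∏ p ∈ s, p` divides `M` then
`om M a = 1 / (a * kap s)`) -/
theorem l2 (s A : Finset ℕ) (M : ℕ) (hM : M ≠ 0) (hs : ∀ p ∈ s, p.Prime) (hMs : M.primeFactors ⊆ s)
    (hA : ∀ a ∈ A, a * ∏ p ∈ s, p ∣ M) :
    ∑ a ∈ A, 1 / (a : ℝ) ≤ kap s * del M (A : Set ℕ) := by
  classical
  have h1 : ∑ a ∈ A, 1 / (a : ℝ) = kap s * ∑ a ∈ A, om M a := by
    rw [Finset.mul_sum]
    exact Finset.sum_congr rfl fun a ha => (om_eq s M a hM hs hMs (hA a ha)).symm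
  rw [h1]
  refine mul_le_mul_of_nonneg_left ?_ (zero_le_one.trans (kap_pos s hs))
  unfold del
  refine Finset.sum_le_sum_of_subset_of_nonneg ?_ fun d _ _ => om_nonneg M d
  intro a ha
  simp only [Finset.mem_filter, Nat.mem_divisors]
  exact ⟨⟨(Dvd.intro _ rfl).trans (hA a ha), hM⟩, a, Finset.mem_coe.2 ha, dvd_rfl⟩

/-- Let `Q0` be the set of the `q ∈ Q` which divide a member of `A` and `Min` the set of its
elements which are minimal under divisibility. `Min` is disjoint from `A`; `l2` for `A ∪ Min` and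
`del_le_sum` for `Min`; `del M Q0 = del M Min`. -/
theorem l2' (s A : Finset ℕ) (M : ℕ) (hM : M ≠ 0) (hs : ∀ p ∈ s, p.Prime)
    (hMs : M.primeFactors ⊆ s) (hA : ∀ a ∈ A, a * ∏ p ∈ s, p ∣ M) (Q : Set ℕ)
    (hQ : ∀ a ∈ A, ∃ q ∈ Q, q ∣ a ∧ q ≠ a) :
    ∑ a ∈ A, 1 / (a : ℝ) ≤ (kap s - 1) * del M Q := by
  classical
  have hAM : ∀ a ∈ A, a ∣ M := fun a ha => (Dvd.intro _ rfl).trans (hA a ha)
  let Q0 : Finset ℕ := M.divisors.filter fun q => q ∈ Q ∧ ∃ a ∈ A, q ∣ a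
  let Mn : Finset ℕ := Q0.filter fun q => ∀ q' ∈ Q0, q' ∣ q → q' = q
  have hQ0 : ∀ q, q ∈ Q0 ↔ q ∈ Q ∧ ∃ a ∈ A, q ∣ a := by
    intro q
    simp only [Q0, Finset.mem_filter, Nat.mem_divisors]
    constructor
    · rintro ⟨_, h⟩
      exact h
    · rintro ⟨h, a, ha, hqa⟩
      exact ⟨⟨hqa.trans (hAM a ha), hM⟩, h, a, ha, hqa⟩
  have hpos : ∀ q ∈ Q0, 0 < q := by
    intro q hq
    simp only [Q0, Finset.mem_filter, Nat.mem_divisors] at hq
    exact Nat.pos_of_dvd_of_pos hq.1.1 (Nat.pos_of_ne_zero hM)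
  -- below every element of `Q0` there is a minimal one
  have hbelow : ∀ n : ℕ, ∀ q ∈ Q0, q ≤ n → ∃ q' ∈ Mn, q' ∣ q := by
    intro n
    induction n with
    | zero =>
      intro q hq hqn
      have := hpos q hq
      omega
    | succ n ih =>
      intro q hq hqn
      by_cases h : ∀ q' ∈ Q0, q' ∣ q → q' = q
      · exact ⟨q, Finset.mem_filter.2 ⟨hq, h⟩, dvd_rfl⟩
      · push Not at h
        obtain ⟨q', hq', hd, hne⟩ := h
        have hlt : q' < q := lt_of_le_of_ne (Nat.le_of_dvd (hpos q hq) hd) hne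
        obtain ⟨q'', hq'', hd'⟩ := ih q' hq' (by omega)
        exact ⟨q'', hq'', hd'.trans hd⟩
  have hdisj : Disjoint A Mn := by
    rw [Finset.disjoint_left]
    intro a ha hm
    obtain ⟨q, hq, hqa, hne⟩ := hQ a ha
    exact hne ((Finset.mem_filter.1 hm).2 q ((hQ0 q).2 ⟨hq, a, ha, hqa⟩) hqa)
  have hU : ∀ a ∈ A ∪ Mn, a * ∏ p ∈ s, p ∣ M := by
    intro a ha
    rcases Finset.mem_union.1 ha with h | h
    · exact hA a h
    · obtain ⟨_, b, hb, hab⟩ := (hQ0 a).1 (Finset.mem_filter.1 h).1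
      exact (Nat.mul_dvd_mul_right hab _).trans (hA b hb)
  have h1 := l2 s (A ∪ Mn) M hM hs hMs hU
  rw [Finset.sum_union hdisj] at h1
  have h2 : del M ((A ∪ Mn : Finset ℕ) : Set ℕ) ≤ del M (Mn : Set ℕ) := by
    refine del_mono M _ _ fun q hq => ?_
    rcases Finset.mem_union.1 (Finset.mem_coe.1 hq) with h | h
    · obtain ⟨q', hq', hd, _⟩ := hQ q h
      have hq0 : q' ∈ Q0 := (hQ0 q').2 ⟨hq', q, h, hd⟩
      obtain ⟨q'', hq'', hd'⟩ := hbelow q' q' hq0 le_rfl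
      exact ⟨q'', Finset.mem_coe.2 hq'', hd'.trans hd⟩
    · exact ⟨q, Finset.mem_coe.2 h, dvd_rfl⟩
  have h3 : del M (Mn : Set ℕ) ≤ del M Q := by
    refine del_mono M _ _ fun q hq => ?_
    have hq0 := (Finset.mem_filter.1 (Finset.mem_coe.1 hq)).1
    exact ⟨q, ((hQ0 q).1 hq0).1, dvd_rfl⟩
  have h4 := del_le_sum M hM Mn
  have hk := kap_pos s hs
  have h5 : kap s * del M ((A ∪ Mn : Finset ℕ) : Set ℕ) ≤ kap s * del M (Mn : Set ℕ) :=
    mul_le_mul_of_nonneg_left h2 (by linarith)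
  have h6 : (kap s - 1) * del M (Mn : Set ℕ) ≤ (kap s - 1) * del M Q :=
    mul_le_mul_of_nonneg_left h3 (by linarith)
  linarith

end Pool.Agent.HSS
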