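import Pool.Agent.HSS.LTwo

/-! # Project HSS, row HSS-11: sums over classes -/

set_option autoImplicit false

namespace Pool.Agent.HSS

theorem cls_geom (y : ℝ) (hy : 1 < y) (e : ℕ) :
    (y - 1) * ∑ b ∈ Finset.Icc 1 e, 1 / y ^ b = 1 - 1 / y ^ e := by
  have hy0 : y ≠ 0 := by linarith
  induction e with
  | zero => simp
  | succ e ih =>
    rw [Finset.sum_Icc_succ_top (by omega), mul_add, ih]
    field_simp
    ring

theorem cls_geom_le (y : ℝ) (hy : 1 < y) (e : ℕ) :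
    ∑ b ∈ Finset.Icc 1 e, 1 / y ^ b ≤ 1 / (y - 1) := by
  have h1 := cls_geom y hy e
  have h2 : 0 < y - 1 := by linarith
  have h3 : 0 < 1 / y ^ e := by positivity
  rw [le_div_iff₀ h2, mul_comm]
  linarith

theorem cls_kap (s : Finset ℕ) (hs : ∀ p ∈ s, p.Prime) : 1 ≤ kap s := by
  unfold kap
  have h1 : ∏ p ∈ s, (1 : ℝ) ≤ ∏ p ∈ s, ((p : ℝ) / ((p : ℝ) - 1)) := by
    refine Finset.prod_le_prod (fun _ _ => zero_le_one) fun p hp => ?_
    have h2 : (2 : ℝ) ≤ p := by exact_mod_cast (hs p hp).two_le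
    rw [le_div_iff₀ (by linarith)]
    linarith
  rwa [Finset.prod_const_one] at h1

/-- the fibre decomposition -/
theorem cls_sum {ι : Type} (V : Finset ι) (q r a b : ι → ℕ) (y e : ℕ) (hy : 1 < y) (K : ℝ)
    (hK : 0 ≤ K) (hN : ∀ i ∈ V, q i * r i = y ^ b i * a i) (hb : ∀ i ∈ V, b i ∈ Finset.Icc 1 e)
    (h : ∀ c, ∑ i ∈ V with b i = c, 1 / (a i : ℝ) ≤ K) :
    ∑ i ∈ V, 1 / ((q i : ℝ) * (r i : ℝ)) ≤ K / ((y : ℝ) - 1) := by
  have hy1 : (1 : ℝ) < y := by exact_mod_cast hy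
  rw [← Finset.sum_fiberwise_of_maps_to hb]
  have h1 : ∀ c ∈ Finset.Icc 1 e, ∑ i ∈ V with b i = c, 1 / ((q i : ℝ) * (r i : ℝ)) ≤
      K * (1 / (y : ℝ) ^ c) := by
    intro c _
    have h2 : ∑ i ∈ V with b i = c, 1 / ((q i : ℝ) * (r i : ℝ)) =
        (∑ i ∈ V with b i = c, 1 / (a i : ℝ)) * (1 / (y : ℝ) ^ c) := by
      rw [Finset.sum_mul]
      refine Finset.sum_congr rfl fun i hi => ?_
      rw [Finset.mem_filter] at hi
      have h3 : (q i : ℝ) * (r i : ℝ) = (y : ℝ) ^ c * (a i : ℝ) := by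
        have h4 := hN i hi.1
        rw [hi.2] at h4
        exact_mod_cast h4
      rw [h3, one_div_mul_one_div, mul_comm]
    rw [h2]
    exact mul_le_mul_of_nonneg_right (h c) (by positivity)
  refine (Finset.sum_le_sum h1).trans ?_
  rw [← Finset.mul_sum]
  have h5 := mul_le_mul_of_nonneg_left (cls_geom_le (y : ℝ) hy1 e) hK
  rwa [mul_one_div] at h5

/-- the numbers `a i` and `b i` -/
theorem cls_ab {q r y e m : ℕ} (hy : y.Prime) (hm : m ≠ 0) (hym : ¬ y ∣ m)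
    (hd : q * r ∣ y ^ e * m) (hq : ¬ y ∣ q) (hr : y ∣ r) :
    ∃ b a : ℕ, q * r = y ^ b * a ∧ 1 ≤ b ∧ b ≤ e ∧ ¬ y ∣ a ∧ q ∣ a ∧ a ∣ m := by
  have h0 : y ^ e * m ≠ 0 := mul_ne_zero (pow_ne_zero _ hy.ne_zero) hm
  have hN : q * r ≠ 0 := ne_zero_of_dvd_ne_zero h0 hd
  obtain ⟨b, a, ha, hba⟩ := Nat.exists_eq_pow_mul_and_not_dvd hN y hy.ne_one
  have hca : Nat.Coprime y a := (Nat.Prime.coprime_iff_not_dvd hy).2 ha
  have hcm : Nat.Coprime y m := (Nat.Prime.coprime_iff_not_dvd hy).2 hym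
  have hcq : Nat.Coprime y q := (Nat.Prime.coprime_iff_not_dvd hy).2 hq
  refine ⟨b, a, hba, ?_, ?_, ha, ?_, ?_⟩
  · by_contra hb
    have hb0 : b = 0 := by omega
    rw [hb0, pow_zero, one_mul] at hba
    exact ha (hba ▸ hr.mul_left q)
  · have h1 : y ^ b ∣ y ^ e * m := (Dvd.intro a hba.symm).trans hd
    have h2 : y ^ b ∣ y ^ e := (hcm.pow_left b).dvd_of_dvd_mul_right h1
    exact (Nat.pow_dvd_pow_iff_le_right hy.one_lt).1 h2
  · have h1 : q ∣ y ^ b * a := Dvd.intro r hba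
    exact (hcq.pow_left b).symm.dvd_of_dvd_mul_left h1
  · have h1 : a ∣ y ^ e * m := (Dvd.intro_left (y ^ b) hba.symm).trans hd
    exact (hca.pow_left e).symm.dvd_of_dvd_mul_left h1

/-- Write `q i * r i = y ^ b i * a i`, `1 ≤ b i ≤ e`, `¬ y ∣ a i`, so `q i ∣ a i ∣ m`. For fixed
`b` the numbers `a i` are distinct: `l2` with `M = m * ∏ p`, `s = m.primeFactors` and `del_mono`;
the sum of the `y ^ (-b)` is at most `1 / (y - 1)`. -/
theorem cls_y {ι : Type} (V : Finset ι) (q r : ι → ℕ) (y e m : ℕ) (hy : y.Prime) (hm : m ≠ 0)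
    (hym : ¬ y ∣ m) (hd : ∀ i ∈ V, q i * r i ∣ y ^ e * m) (hq : ∀ i ∈ V, ¬ y ∣ q i)
    (hr : ∀ i ∈ V, y ∣ r i) (hinj : ∀ i ∈ V, ∀ j ∈ V, q i * r i = q j * r j → i = j) :
    ∑ i ∈ V, 1 / ((q i : ℝ) * (r i : ℝ)) ≤ kap m.primeFactors / ((y : ℝ) - 1) *
      del (m * ∏ p ∈ m.primeFactors, p) {x | ∃ i ∈ V, x = q i} := by
  classical
  have hex : ∀ i : ι, ∃ b a : ℕ, i ∈ V → (q i * r i = y ^ b * a ∧ 1 ≤ b ∧ b ≤ e ∧ ¬ y ∣ a ∧
      q i ∣ a ∧ a ∣ m) := by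
    intro i
    by_cases hi : i ∈ V
    · obtain ⟨b, a, h⟩ := cls_ab hy hm hym (hd i hi) (hq i hi) (hr i hi)
      exact ⟨b, a, fun _ => h⟩
    · exact ⟨0, 0, fun h => absurd h hi⟩
  choose b a hab using hex
  have hsp : ∀ p ∈ m.primeFactors, p.Prime := fun p hp => Nat.prime_of_mem_primeFactors hp
  have hP0 : ∏ p ∈ m.primeFactors, p ≠ 0 :=
    Finset.prod_ne_zero_iff.2 fun p hp => (hsp p hp).ne_zero
  have hM : m * ∏ p ∈ m.primeFactors, p ≠ 0 := mul_ne_zero hm hP0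
  have hMs : (m * ∏ p ∈ m.primeFactors, p).primeFactors ⊆ m.primeFactors := by
    intro p hp
    rw [Nat.primeFactors_mul hm hP0, Finset.mem_union] at hp
    rcases hp with hp | hp
    · exact hp
    · rw [Nat.primeFactors_prod hsp] at hp
      exact hp
  have hK : 0 ≤ kap m.primeFactors *
      del (m * ∏ p ∈ m.primeFactors, p) {x | ∃ i ∈ V, x = q i} :=
    mul_nonneg (le_trans zero_le_one (cls_kap _ hsp)) (del_nonneg _ _)
  rw [div_mul_eq_mul_div]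
  refine cls_sum V q r a b y e hy.one_lt _ hK (fun i hi => (hab i hi).1)
    (fun i hi => Finset.mem_Icc.2 ⟨(hab i hi).2.1, (hab i hi).2.2.1⟩) fun c => ?_
  have hinj' : Set.InjOn a ((V.filter fun i => b i = c : Finset ι) : Set ι) := by
    intro i hi j hj hij
    rw [Finset.mem_coe, Finset.mem_filter] at hi hj
    refine hinj i hi.1 j hj.1 ?_
    rw [(hab i hi.1).1, (hab j hj.1).1, hi.2, hj.2, hij]
  have h1 := l2 m.primeFactors ((V.filter fun i => b i = c).image a)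
    (m * ∏ p ∈ m.primeFactors, p) hM hsp hMs (fun x hx => by
      rw [Finset.mem_image] at hx
      obtain ⟨i, hi, rfl⟩ := hx
      rw [Finset.mem_filter] at hi
      exact Nat.mul_dvd_mul_right (hab i hi.1).2.2.2.2.2 _)
  rw [Finset.sum_image hinj'] at h1
  refine h1.trans (mul_le_mul_of_nonneg_left (del_mono _ _ _ fun x hx => ?_)
    (le_trans zero_le_one (cls_kap _ hsp)))
  rw [Finset.mem_coe, Finset.mem_image] at hx
  obtain ⟨i, hi, rfl⟩ := hx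
  rw [Finset.mem_filter] at hi
  exact ⟨q i, ⟨i, hi.1, rfl⟩, (hab i hi.1).2.2.2.2.1⟩

/-- The same with `l2'`: `q i ≠ a i`. -/
theorem cls_y' {ι : Type} (V : Finset ι) (q r : ι → ℕ) (y e m : ℕ) (hy : y.Prime) (hm : m ≠ 0)
    (hym : ¬ y ∣ m) (hd : ∀ i ∈ V, q i * r i ∣ y ^ e * m) (hq : ∀ i ∈ V, ¬ y ∣ q i)
    (hr : ∀ i ∈ V, y ∣ r i) (hr' : ∀ i ∈ V, ∀ k, r i ≠ y ^ k)
    (hinj : ∀ i ∈ V, ∀ j ∈ V, q i * r i = q j * r j → i = j) :
    ∑ i ∈ V, 1 / ((q i : ℝ) * (r i : ℝ)) ≤ (kap m.primeFactors - 1) / ((y : ℝ) - 1) *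
      del (m * ∏ p ∈ m.primeFactors, p) {x | ∃ i ∈ V, x = q i} := by
  classical
  have hex : ∀ i : ι, ∃ b a : ℕ, i ∈ V → (q i * r i = y ^ b * a ∧ 1 ≤ b ∧ b ≤ e ∧ ¬ y ∣ a ∧
      q i ∣ a ∧ a ∣ m) := by
    intro i
    by_cases hi : i ∈ V
    · obtain ⟨b, a, h⟩ := cls_ab hy hm hym (hd i hi) (hq i hi) (hr i hi)
      exact ⟨b, a, fun _ => h⟩
    · exact ⟨0, 0, fun h => absurd h hi⟩
  choose b a hab using hex
  have hsp : ∀ p ∈ m.primeFactors, p.Prime := fun p hp => Nat.prime_of_mem_primeFactors hp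
  have hP0 : ∏ p ∈ m.primeFactors, p ≠ 0 :=
    Finset.prod_ne_zero_iff.2 fun p hp => (hsp p hp).ne_zero
  have hM : m * ∏ p ∈ m.primeFactors, p ≠ 0 := mul_ne_zero hm hP0
  have hMs : (m * ∏ p ∈ m.primeFactors, p).primeFactors ⊆ m.primeFactors := by
    intro p hp
    rw [Nat.primeFactors_mul hm hP0, Finset.mem_union] at hp
    rcases hp with hp | hp
    · exact hp
    · rw [Nat.primeFactors_prod hsp] at hp
      exact hp
  have hk1 : 0 ≤ kap m.primeFactors - 1 := sub_nonneg.2 (cls_kap _ hsp)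
  have hK : 0 ≤ (kap m.primeFactors - 1) *
      del (m * ∏ p ∈ m.primeFactors, p) {x | ∃ i ∈ V, x = q i} :=
    mul_nonneg hk1 (del_nonneg _ _)
  rw [div_mul_eq_mul_div]
  refine cls_sum V q r a b y e hy.one_lt _ hK (fun i hi => (hab i hi).1)
    (fun i hi => Finset.mem_Icc.2 ⟨(hab i hi).2.1, (hab i hi).2.2.1⟩) fun c => ?_
  have hinj' : Set.InjOn a ((V.filter fun i => b i = c : Finset ι) : Set ι) := by
    intro i hi j hj hij
    rw [Finset.mem_coe, Finset.mem_filter] at hi hj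
    refine hinj i hi.1 j hj.1 ?_
    rw [(hab i hi.1).1, (hab j hj.1).1, hi.2, hj.2, hij]
  have h1 := l2' m.primeFactors ((V.filter fun i => b i = c).image a)
    (m * ∏ p ∈ m.primeFactors, p) hM hsp hMs (fun x hx => by
      rw [Finset.mem_image] at hx
      obtain ⟨i, hi, rfl⟩ := hx
      rw [Finset.mem_filter] at hi
      exact Nat.mul_dvd_mul_right (hab i hi.1).2.2.2.2.2 _) {x | ∃ i ∈ V, x = q i}
    (fun x hx => by
      rw [Finset.mem_image] at hx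
      obtain ⟨i, hi, rfl⟩ := hx
      rw [Finset.mem_filter] at hi
      refine ⟨q i, ⟨i, hi.1, rfl⟩, (hab i hi.1).2.2.2.2.1, fun hqa => ?_⟩
      have h2 := (hab i hi.1).1
      rw [← hqa, mul_comm (y ^ b i)] at h2
      have hq0 : 0 < q i := by
        refine Nat.pos_of_ne_zero fun h3 => hq i hi.1 ?_
        rw [h3]
        exact dvd_zero y
      exact hr' i hi.1 (b i) (Nat.eq_of_mul_eq_mul_left hq0 h2))
  rw [Finset.sum_image hinj'] at h1
  exact h1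

end Pool.Agent.HSS
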