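import Pool.Agent.HSS.LTwo

/-! # Project HSS, row HSS-11b: the sum over the class of a power of a small prime -/

set_option autoImplicit false

namespace Pool.Agent.HSS

/-- `q i * r i = k * a i`, the `a i` are distinct. -/
theorem cls_m {ι : Type} (V : Finset ι) (q r : ι → ℕ) (m k : ℕ) (hm : m ≠ 0) (hk : k ≠ 0)
    (hd : ∀ i ∈ V, q i * r i ∣ m) (hr : ∀ i ∈ V, k ∣ r i)
    (hinj : ∀ i ∈ V, ∀ j ∈ V, q i * r i = q j * r j → i = j) :
    ∑ i ∈ V, 1 / ((q i : ℝ) * (r i : ℝ)) ≤ kap m.primeFactors / (k : ℝ) *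
      del (m * ∏ p ∈ m.primeFactors, p) {x | ∃ i ∈ V, x = q i} := by
  classical
  have hP : (∏ p ∈ m.primeFactors, p) ≠ 0 :=
    Finset.prod_ne_zero_iff.mpr fun p hp => (Nat.prime_of_mem_primeFactors hp).ne_zero
  have hM : m * ∏ p ∈ m.primeFactors, p ≠ 0 := mul_ne_zero hm hP
  have hkap : 0 ≤ kap m.primeFactors := by
    unfold kap
    refine Finset.prod_nonneg fun p hp => ?_
    have h2 : (2 : ℝ) ≤ p := by exact_mod_cast (Nat.prime_of_mem_primeFactors hp).two_le
    exact div_nonneg (by linarith) (by linarith)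
  -- the numbers `a i`
  let a : ι → ℕ := fun i => q i * (r i / k)
  have ha : ∀ i ∈ V, q i * r i = k * a i := by
    intro i hi
    obtain ⟨c, hc⟩ := hr i hi
    have h1 : r i / k = c := by
      rw [hc]
      exact Nat.mul_div_cancel_left c (Nat.pos_of_ne_zero hk)
    show q i * r i = k * (q i * (r i / k))
    rw [h1, hc]
    ring
  have hinj' : Set.InjOn a (V : Set ι) := by
    intro i hi j hj hij
    apply hinj i hi j hj
    rw [ha i hi, ha j hj, hij]
  have hsum : ∑ i ∈ V, 1 / ((q i : ℝ) * (r i : ℝ)) =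
      (1 / (k : ℝ)) * ∑ x ∈ V.image a, 1 / (x : ℝ) := by
    rw [Finset.sum_image hinj', Finset.mul_sum]
    refine Finset.sum_congr rfl fun i hi => ?_
    have h1 : (q i : ℝ) * (r i : ℝ) = (k : ℝ) * (a i : ℝ) := by exact_mod_cast ha i hi
    rw [h1, one_div_mul_one_div]
  have hA : ∀ x ∈ V.image a, x * ∏ p ∈ m.primeFactors, p ∣ m * ∏ p ∈ m.primeFactors, p := by
    intro x hx
    obtain ⟨i, hi, rfl⟩ := Finset.mem_image.mp hx
    apply Nat.mul_dvd_mul_right
    refine Dvd.dvd.trans ?_ (hd i hi)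
    rw [ha i hi]
    exact Dvd.intro_left k rfl
  have hs : (m * ∏ p ∈ m.primeFactors, p).primeFactors ⊆ m.primeFactors := by
    rw [Nat.primeFactors_mul hm hP]
    refine Finset.union_subset (Finset.Subset.refl _) ?_
    intro p hp
    have hpp := Nat.prime_of_mem_primeFactors hp
    obtain ⟨p', hp', h2⟩ := (hpp.prime.dvd_finsetProd_iff _).mp (Nat.dvd_of_mem_primeFactors hp)
    have h3 := (Nat.prime_dvd_prime_iff_eq hpp (Nat.prime_of_mem_primeFactors hp')).mp h2
    rw [h3]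
    exact hp'
  have h2 := l2 m.primeFactors (V.image a) (m * ∏ p ∈ m.primeFactors, p) hM
    (fun p hp => Nat.prime_of_mem_primeFactors hp) hs hA
  have h3 : del (m * ∏ p ∈ m.primeFactors, p) ((V.image a : Finset ℕ) : Set ℕ) ≤
      del (m * ∏ p ∈ m.primeFactors, p) {x | ∃ i ∈ V, x = q i} := by
    apply del_mono
    intro x hx
    obtain ⟨i, hi, rfl⟩ := Finset.mem_image.mp (Finset.mem_coe.mp hx)
    exact ⟨q i, ⟨i, hi, rfl⟩, Dvd.intro _ rfl⟩
  have hk0 : (0 : ℝ) < k := by exact_mod_cast Nat.pos_of_ne_zero hk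
  rw [hsum]
  calc (1 / (k : ℝ)) * ∑ x ∈ V.image a, 1 / (x : ℝ)
      ≤ (1 / (k : ℝ)) * (kap m.primeFactors *
          del (m * ∏ p ∈ m.primeFactors, p) {x | ∃ i ∈ V, x = q i}) := by
        refine mul_le_mul_of_nonneg_left ?_ (by positivity)
        exact h2.trans (mul_le_mul_of_nonneg_left h3 hkap)
    _ = kap m.primeFactors / (k : ℝ) *
          del (m * ∏ p ∈ m.primeFactors, p) {x | ∃ i ∈ V, x = q i} := by ring

end Pool.Agent.HSS
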