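import Pool.Agent.HSS.Om
import Pool.Agent.HSS.Cls
import Pool.Agent.HSS.ClsM

/-! # Project HSS, row HSS-16: the general contradiction -/

set_option autoImplicit false

namespace Pool.Agent.HSS

private theorem hss16_kap_nonneg (m : ℕ) : 0 ≤ kap m.primeFactors := by
  unfold kap
  refine Finset.prod_nonneg fun p hp => ?_
  have hp2 : 2 ≤ p := (Nat.prime_of_mem_primeFactors hp).two_le
  have h1 : (2 : ℝ) ≤ p := by exact_mod_cast hp2
  exact div_nonneg (by linarith) (by linarith)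

private theorem hss16_biUnion {α β : Type} [DecidableEq α] [DecidableEq β] (s : Finset β)
    (t : β → Finset α) (f : α → ℝ) (hf : ∀ a, 0 ≤ f a) :
    ∑ x ∈ s.biUnion t, f x ≤ ∑ b ∈ s, ∑ x ∈ t b, f x := by
  induction s using Finset.induction_on with
  | empty => simp
  | insert b s hb ih =>
    rw [Finset.biUnion_insert, Finset.sum_insert hb]
    have h := Finset.sum_union_inter (s₁ := t b) (s₂ := s.biUnion t) (f := f)
    have h1 : 0 ≤ ∑ x ∈ t b ∩ s.biUnion t, f x := Finset.sum_nonneg fun x _ => hf x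
    linarith

/-- Split `U` into the `i` with `y ∣ r i` and, for `l ∈ m.primeFactors`, the `i` with `¬ y ∣ r i`
and `mm y l ∣ r i` (their `q i * r i` divides `m`): `cls_y`, `cls_m`, `del_mono` give
`w ≤ Λ * δ` with `δ = del M {q i | i ∈ U} ≤ D U ≤ w`, `0 < δ` by `del_pos`. -/
theorem gen_false {ι : Type} (y e m : ℕ) (hy : y.Prime) (hm : m ≠ 0) (hym : ¬ y ∣ m)
    (d : Dat ι y e m)
    (h : kap m.primeFactors *
      (1 / ((y : ℝ) - 1) + ∑ l ∈ m.primeFactors, 1 / (mm y l : ℝ)) < 1) : False := by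
  classical
  set M : ℕ := m * ∏ p ∈ m.primeFactors, p with hM
  set δ : ℝ := del M {x | ∃ i ∈ d.U, x = d.q i} with hδ
  have hM0 : M ≠ 0 := by
    rw [hM]
    refine mul_ne_zero hm (Finset.prod_ne_zero_iff.mpr fun p hp => ?_)
    exact (Nat.prime_of_mem_primeFactors hp).ne_zero
  have hk0 := hss16_kap_nonneg m
  have hyr : (1 : ℝ) ≤ (y : ℝ) - 1 := by
    have : (2 : ℝ) ≤ y := by exact_mod_cast hy.two_le
    linarith
  have hδ0 : 0 ≤ δ := del_nonneg _ _
  -- coprimality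
  have hcop : ∀ x : ℕ, ¬ y ∣ x → Nat.Coprime x (y ^ e) := by
    intro x hx
    exact (Nat.Coprime.pow_left e ((Nat.Prime.coprime_iff_not_dvd hy).mpr hx)).symm
  -- monotonicity in the set of indices
  have hmono : ∀ V ⊆ d.U, del M {x | ∃ i ∈ V, x = d.q i} ≤ δ := by
    intro V hV
    refine del_mono _ _ _ ?_
    rintro q ⟨i, hi, rfl⟩
    exact ⟨d.q i, ⟨i, hV hi, rfl⟩, dvd_rfl⟩
  -- the first class
  set Vy := d.U.filter fun i => y ∣ d.r i with hVy
  have hVyU : Vy ⊆ d.U := Finset.filter_subset _ _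
  have h1 : ∑ i ∈ Vy, 1 / ((d.q i : ℝ) * (d.r i : ℝ)) ≤
      kap m.primeFactors * (1 / ((y : ℝ) - 1)) * δ := by
    have h2 := cls_y Vy d.q d.r y e m hy hm hym (fun i hi => d.hd i (hVyU hi))
      (fun i hi => d.hq i (hVyU hi)) (fun i hi => (Finset.mem_filter.mp hi).2)
      (fun i hi j hj => d.hinj i (hVyU hi) j (hVyU hj))
    refine h2.trans ?_
    rw [mul_one_div]
    exact mul_le_mul_of_nonneg_left (hmono Vy hVyU) (div_nonneg hk0 (by linarith))
  -- the other classes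
  let Vl : ℕ → Finset ι := fun l => d.U.filter fun i => ¬ y ∣ d.r i ∧ mm y l ∣ d.r i
  have hVlU : ∀ l, Vl l ⊆ d.U := fun l => Finset.filter_subset _ _
  have h3 : ∀ l ∈ m.primeFactors, ∑ i ∈ Vl l, 1 / ((d.q i : ℝ) * (d.r i : ℝ)) ≤
      kap m.primeFactors * (1 / (mm y l : ℝ)) * δ := by
    intro l hl
    have hlp : l.Prime := Nat.prime_of_mem_primeFactors hl
    have hk : mm y l ≠ 0 := pow_ne_zero _ hlp.ne_zero
    have h4 := cls_m (Vl l) d.q d.r m (mm y l) hm hk (fun i hi => by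
        have hi' := Finset.mem_filter.mp hi
        have h5 : ¬ y ∣ d.q i * d.r i := by
          intro h6
          rcases (Nat.Prime.dvd_mul hy).mp h6 with h7 | h7
          · exact d.hq i hi'.1 h7
          · exact hi'.2.1 h7
        exact (hcop _ h5).dvd_of_dvd_mul_left (d.hd i hi'.1))
      (fun i hi => (Finset.mem_filter.mp hi).2.2)
      (fun i hi j hj => d.hinj i (hVlU l hi) j (hVlU l hj))
    refine h4.trans ?_
    rw [mul_one_div]
    exact mul_le_mul_of_nonneg_left (hmono _ (hVlU l)) (div_nonneg hk0 (Nat.cast_nonneg _))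
  -- the sum over all classes
  have hnn : ∀ i : ι, 0 ≤ 1 / ((d.q i : ℝ) * (d.r i : ℝ)) := fun i => by positivity
  have h4 : d.w ≤ ∑ i ∈ Vy, 1 / ((d.q i : ℝ) * (d.r i : ℝ)) +
      ∑ l ∈ m.primeFactors, ∑ i ∈ Vl l, 1 / ((d.q i : ℝ) * (d.r i : ℝ)) := by
    rw [← d.hw, ← Finset.sum_filter_add_sum_filter_not d.U (fun i => y ∣ d.r i)]
    refine add_le_add le_rfl ?_
    calc ∑ i ∈ d.U.filter (fun i => ¬ y ∣ d.r i), 1 / ((d.q i : ℝ) * (d.r i : ℝ))
        ≤ ∑ i ∈ m.primeFactors.biUnion Vl, 1 / ((d.q i : ℝ) * (d.r i : ℝ)) := by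
          refine Finset.sum_le_sum_of_subset_of_nonneg ?_ fun i _ _ => hnn i
          intro i hi
          have hi' := Finset.mem_filter.mp hi
          rcases d.hr i hi'.1 with h5 | ⟨l, hl, h5⟩
          · exact absurd h5 hi'.2
          · exact Finset.mem_biUnion.mpr ⟨l, hl, Finset.mem_filter.mpr ⟨hi'.1, hi'.2, h5⟩⟩
      _ ≤ ∑ l ∈ m.primeFactors, ∑ i ∈ Vl l, 1 / ((d.q i : ℝ) * (d.r i : ℝ)) :=
          hss16_biUnion _ _ _ hnn
  have h5 : d.w ≤ kap m.primeFactors *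
      (1 / ((y : ℝ) - 1) + ∑ l ∈ m.primeFactors, 1 / (mm y l : ℝ)) * δ := by
    refine h4.trans ((add_le_add h1 (Finset.sum_le_sum h3)).trans (le_of_eq ?_))
    rw [← Finset.sum_mul, ← Finset.mul_sum]
    ring
  -- positivity
  have hpos : 0 < δ := by
    obtain ⟨i, hi⟩ := d.hne
    refine del_pos M hM0 _ (d.q i) ⟨i, hi, rfl⟩ ?_
    have h6 : d.q i ∣ m :=
      (hcop _ (d.hq i hi)).dvd_of_dvd_mul_left ((Dvd.intro _ rfl).trans (d.hd i hi))
    exact h6.trans (Dvd.intro _ rfl)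
  have h7 : δ ≤ d.w := (d.hD1 d.U subset_rfl).trans (d.hD2 d.U subset_rfl)
  have h8 := mul_lt_mul_of_pos_right h hpos
  linarith

end Pool.Agent.HSS
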