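import Pool.Agent.HSS.Defs

/-! # Project HSS, row HSS-12: the primes 5, 7, 11, 13 -/

set_option autoImplicit false

namespace Pool.Agent.HSS

theorem hss12_mono {y : ℕ} (hy : 1 < y) {s S : Finset ℕ} (hsub : s ⊆ S) (hS : ∀ p ∈ S, 2 ≤ p)
    (hnum : kap S * (1 / ((y : ℝ) - 1) + ∑ l ∈ S, 1 / (mm y l : ℝ)) < 1) :
    kap s * (1 / ((y : ℝ) - 1) + ∑ l ∈ s, 1 / (mm y l : ℝ)) < 1 := by
  have hy' : (1 : ℝ) < y := by exact_mod_cast hy
  have hf : ∀ p ∈ S, (1 : ℝ) ≤ (p : ℝ) / ((p : ℝ) - 1) := by
    intro p hp
    have : (2 : ℝ) ≤ p := by exact_mod_cast hS p hp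
    rw [le_div_iff₀ (by linarith)]
    linarith
  have h0 : 0 ≤ kap s := Finset.prod_nonneg fun p hp => by
    have := hf p (hsub hp)
    linarith
  have h1 : kap s ≤ kap S := by
    unfold kap
    rw [← Finset.prod_sdiff hsub]
    have h2 : (1 : ℝ) ≤ ∏ p ∈ S \ s, ((p : ℝ) / ((p : ℝ) - 1)) := by
      have := Finset.prod_le_prod (s := S \ s) (f := fun _ => (1 : ℝ))
        (g := fun p : ℕ => (p : ℝ) / ((p : ℝ) - 1)) (fun _ _ => zero_le_one)
        (fun p hp => hf p (Finset.mem_sdiff.1 hp).1)
      simpa using this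
    exact le_mul_of_one_le_left h0 h2
  have h3 : ∑ l ∈ s, 1 / (mm y l : ℝ) ≤ ∑ l ∈ S, 1 / (mm y l : ℝ) :=
    Finset.sum_le_sum_of_subset_of_nonneg hsub fun l _ _ => by positivity
  have h4 : 0 ≤ ∑ l ∈ s, 1 / (mm y l : ℝ) := Finset.sum_nonneg fun l _ => by positivity
  have h5 : 0 < 1 / ((y : ℝ) - 1) := by
    apply one_div_pos.2
    linarith
  refine lt_of_le_of_lt ?_ hnum
  exact mul_le_mul h1 (by linarith) (by linarith) (h0.trans h1)

theorem hss12_mm {y l n : ℕ} (h : orderOf (l : ZMod y) = n) : mm y l = l ^ n := by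
  rw [mm, h]

theorem hss12_five : mm 5 2 = 2 ^ 4 ∧ mm 5 3 = 3 ^ 4 := by
  refine ⟨hss12_mm ?_, hss12_mm ?_⟩
  · rw [orderOf_eq_iff (by norm_num)]; decide
  · rw [orderOf_eq_iff (by norm_num)]; decide

theorem hss12_seven : mm 7 2 = 2 ^ 3 ∧ mm 7 3 = 3 ^ 6 ∧ mm 7 5 = 5 ^ 6 := by
  refine ⟨hss12_mm ?_, hss12_mm ?_, hss12_mm ?_⟩
  · rw [orderOf_eq_iff (by norm_num)]; decide
  · rw [orderOf_eq_iff (by norm_num)]; decide
  · rw [orderOf_eq_iff (by norm_num)]; decide

theorem hss12_eleven : mm 11 2 = 2 ^ 10 ∧ mm 11 3 = 3 ^ 5 ∧ mm 11 5 = 5 ^ 5 ∧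
    mm 11 7 = 7 ^ 10 := by
  refine ⟨hss12_mm ?_, hss12_mm ?_, hss12_mm ?_, hss12_mm ?_⟩
  · rw [orderOf_eq_iff (by norm_num)]; decide
  · rw [orderOf_eq_iff (by norm_num)]; decide
  · rw [orderOf_eq_iff (by norm_num)]; decide
  · rw [orderOf_eq_iff (by norm_num)]; decide

theorem hss12_thirteen : mm 13 2 = 2 ^ 12 ∧ mm 13 3 = 3 ^ 3 ∧ mm 13 5 = 5 ^ 4 ∧
    mm 13 7 = 7 ^ 12 ∧ mm 13 11 = 11 ^ 12 := by
  refine ⟨hss12_mm ?_, hss12_mm ?_, hss12_mm ?_, hss12_mm ?_, hss12_mm ?_⟩
  · rw [orderOf_eq_iff (by norm_num)]; decide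
  · rw [orderOf_eq_iff (by norm_num)]; decide
  · rw [orderOf_eq_iff (by norm_num)]; decide
  · rw [orderOf_eq_iff (by norm_num)]; decide
  · rw [orderOf_eq_iff (by norm_num)]; decide

/-- Both factors are monotone in `s`; `y = 5`: `3 (1/4 + 1/16 + 1/81)`; `y = 7`: at most `.88` for
the proper subsets of `{2, 3, 5}`; `y = 11`: `4.375 (1/10 + 1/1024 + 1/243 + 1/3125 + 1/7^10)`;
`y = 13`: `4.8125 (1/12 + 1/4096 + 1/27 + 1/625 + 1/7^12 + 1/11^12)`. Lower bounds of the orders are
enough. -/
theorem lam_small (y : ℕ) (hy : y = 5 ∨ y = 7 ∨ y = 11 ∨ y = 13) (s : Finset ℕ)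
    (hs : ∀ p ∈ s, p.Prime ∧ p < y) (h7 : y = 7 → s ≠ {2, 3, 5}) :
    kap s * (1 / ((y : ℝ) - 1) + ∑ l ∈ s, 1 / (mm y l : ℝ)) < 1 := by
  rcases hy with rfl | rfl | rfl | rfl
  · have hsub : s ⊆ {2, 3} := by
      intro p hp
      obtain ⟨h1, h2⟩ := hs p hp
      interval_cases p <;> first | decide | (exfalso; revert h1; norm_num)
    refine hss12_mono (by norm_num) hsub (by decide) ?_
    rw [Finset.sum_insert (by decide), Finset.sum_singleton, kap,
      Finset.prod_insert (by decide), Finset.prod_singleton, hss12_five.1, hss12_five.2]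
    norm_num
  · have hsub : s ⊆ {2, 3, 5} := by
      intro p hp
      obtain ⟨h1, h2⟩ := hs p hp
      interval_cases p <;> first | decide | (exfalso; revert h1; norm_num)
    have hcase : s ⊆ {2, 3} ∨ s ⊆ {2, 5} ∨ s ⊆ {3, 5} := by
      by_cases h2 : 2 ∈ s
      · by_cases h3 : 3 ∈ s
        · by_cases h5 : 5 ∈ s
          · exfalso
            apply h7 rfl
            apply Finset.Subset.antisymm hsub
            intro p hp
            simp only [Finset.mem_insert, Finset.mem_singleton] at hp
            rcases hp with rfl | rfl | rfl <;> assumption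
          · left
            intro p hp
            have := hsub hp
            simp only [Finset.mem_insert, Finset.mem_singleton] at this ⊢
            rcases this with rfl | rfl | rfl
            · simp
            · simp
            · exact absurd hp h5
        · right; left
          intro p hp
          have := hsub hp
          simp only [Finset.mem_insert, Finset.mem_singleton] at this ⊢
          rcases this with rfl | rfl | rfl
          · simp
          · exact absurd hp h3
          · simp
      · right; right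
        intro p hp
        have := hsub hp
        simp only [Finset.mem_insert, Finset.mem_singleton] at this ⊢
        rcases this with rfl | rfl | rfl
        · exact absurd hp h2
        · simp
        · simp
    obtain ⟨m2, m3, m5⟩ := hss12_seven
    rcases hcase with h | h | h
    · refine hss12_mono (by norm_num) h (by decide) ?_
      rw [Finset.sum_insert (by decide), Finset.sum_singleton, kap,
        Finset.prod_insert (by decide), Finset.prod_singleton, m2, m3]
      norm_num
    · refine hss12_mono (by norm_num) h (by decide) ?_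
      rw [Finset.sum_insert (by decide), Finset.sum_singleton, kap,
        Finset.prod_insert (by decide), Finset.prod_singleton, m2, m5]
      norm_num
    · refine hss12_mono (by norm_num) h (by decide) ?_
      rw [Finset.sum_insert (by decide), Finset.sum_singleton, kap,
        Finset.prod_insert (by decide), Finset.prod_singleton, m3, m5]
      norm_num
  · have hsub : s ⊆ {2, 3, 5, 7} := by
      intro p hp
      obtain ⟨h1, h2⟩ := hs p hp
      interval_cases p <;> first | decide | (exfalso; revert h1; norm_num)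
    obtain ⟨m2, m3, m5, m7⟩ := hss12_eleven
    refine hss12_mono (by norm_num) hsub (by decide) ?_
    rw [Finset.sum_insert (by decide), Finset.sum_insert (by decide),
      Finset.sum_insert (by decide), Finset.sum_singleton, kap,
      Finset.prod_insert (by decide), Finset.prod_insert (by decide),
      Finset.prod_insert (by decide), Finset.prod_singleton, m2, m3, m5, m7]
    norm_num
  · have hsub : s ⊆ {2, 3, 5, 7, 11} := by
      intro p hp
      obtain ⟨h1, h2⟩ := hs p hp
      interval_cases p <;> first | decide | (exfalso; revert h1; norm_num)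
    obtain ⟨m2, m3, m5, m7, m11⟩ := hss12_thirteen
    refine hss12_mono (by norm_num) hsub (by decide) ?_
    rw [Finset.sum_insert (by decide), Finset.sum_insert (by decide),
      Finset.sum_insert (by decide), Finset.sum_insert (by decide), Finset.sum_singleton, kap,
      Finset.prod_insert (by decide), Finset.prod_insert (by decide),
      Finset.prod_insert (by decide), Finset.prod_insert (by decide), Finset.prod_singleton,
      m2, m3, m5, m7, m11]
    norm_num

end Pool.Agent.HSS
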