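import Pool.Agent.HSS.NumB

/-! # Project HSS, row HSS-14: the primes from 17 to 73 -/

set_option autoImplicit false

namespace Pool.Agent.HSS

/-- the primes below `y` -/
private def s14P (y : ℕ) : Finset ℕ := (Finset.range y).filter Nat.Prime

/-- the bound, as a rational number -/
private def s14q (y n : ℕ) : ℚ :=
  (∏ p ∈ s14P y, ((p : ℚ) / ((p : ℚ) - 1))) *
    (1 / ((y : ℚ) - 1) + (1 / ((y : ℚ) + 1) +
      ∑ k ∈ Finset.range n, 1 / (2 * ((k : ℚ) + 1) * (y : ℚ) + 1)))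

private theorem s14_num : ∀ y ∈ Finset.Ico 17 79, y.Prime →
    s14q y ((s14P y).erase 2).card < 1 := by
  decide +kernel

private theorem s14_one_le {p : ℕ} (hp : p.Prime) : 1 ≤ (p : ℝ) / ((p : ℝ) - 1) := by
  have h2 : (2 : ℝ) ≤ p := by exact_mod_cast hp.two_le
  rw [le_div_iff₀ (by linarith)]
  linarith

private theorem s14_kap_mono {s t : Finset ℕ} (hst : s ⊆ t) (ht : ∀ p ∈ t, p.Prime) :
    kap s ≤ kap t := by
  rw [kap, kap, ← Finset.prod_sdiff hst]
  have h1 : 1 ≤ ∏ p ∈ t \ s, ((p : ℝ) / ((p : ℝ) - 1)) := by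
    refine Finset.prod_induction _ (fun x => (1 : ℝ) ≤ x) (fun a b ha hb => ?_) le_rfl
      (fun p hp => s14_one_le (ht p (Finset.mem_sdiff.1 hp).1))
    nlinarith
  have h2 : 0 ≤ ∏ p ∈ s, ((p : ℝ) / ((p : ℝ) - 1)) :=
    Finset.prod_nonneg fun p hp => zero_le_one.trans (s14_one_le (ht p (hst hp)))
  nlinarith

/-- (`sum_mm` with `n` the number of odd primes below `y`; `kap s` is at most the product over all
primes below `y`; values .960, .937, .835, ...) -/
theorem lam_mid (y : ℕ) (hy : y.Prime) (h1 : 17 ≤ y) (h2 : y < 79) (s : Finset ℕ)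
    (hs : ∀ p ∈ s, p.Prime ∧ p < y) :
    kap s * (1 / ((y : ℝ) - 1) + ∑ l ∈ s, 1 / (mm y l : ℝ)) < 1 := by
  have hst : s ⊆ s14P y := fun p hp =>
    Finset.mem_filter.2 ⟨Finset.mem_range.2 (hs p hp).2, (hs p hp).1⟩
  have hP : ∀ p ∈ s14P y, p.Prime := fun p hp => (Finset.mem_filter.1 hp).2
  have hsum := sum_mm y hy (by omega) s hs ((s14P y).erase 2).card
    (Finset.card_le_card (Finset.erase_subset_erase 2 hst))
  have hk := s14_kap_mono hst hP
  have hk0 : 0 ≤ kap s :=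
    Finset.prod_nonneg fun p hp => zero_le_one.trans (s14_one_le (hs p hp).1)
  have hy1 : (17 : ℝ) ≤ y := by exact_mod_cast h1
  have hn := s14_num y (Finset.mem_Ico.2 ⟨h1, h2⟩) hy
  have hn' : ((s14q y ((s14P y).erase 2).card : ℚ) : ℝ) < 1 := by exact_mod_cast hn
  have hcast : ((s14q y ((s14P y).erase 2).card : ℚ) : ℝ) = kap (s14P y) *
      (1 / ((y : ℝ) - 1) + (1 / ((y : ℝ) + 1) +
        ∑ k ∈ Finset.range ((s14P y).erase 2).card,
          1 / (2 * ((k : ℝ) + 1) * (y : ℝ) + 1))) := by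
    rw [s14q, kap]
    push_cast
    rfl
  rw [hcast] at hn'
  have hpos : 0 ≤ 1 / ((y : ℝ) - 1) + (1 / ((y : ℝ) + 1) +
        ∑ k ∈ Finset.range ((s14P y).erase 2).card,
          1 / (2 * ((k : ℝ) + 1) * (y : ℝ) + 1)) := by
    have e1 : 0 ≤ 1 / ((y : ℝ) - 1) := by
      apply div_nonneg zero_le_one; linarith
    have e2 : 0 ≤ ∑ k ∈ Finset.range ((s14P y).erase 2).card,
          1 / (2 * ((k : ℝ) + 1) * (y : ℝ) + 1) :=
      Finset.sum_nonneg fun k _ => by positivity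
    have e3 : 0 ≤ 1 / ((y : ℝ) + 1) := by positivity
    linarith
  refine lt_of_le_of_lt ?_ hn'
  refine mul_le_mul hk ?_ ?_ (hk0.trans hk)
  · linarith
  · have e1 : 0 ≤ 1 / ((y : ℝ) - 1) := by
      apply div_nonneg zero_le_one; linarith
    have e2 : 0 ≤ ∑ l ∈ s, 1 / (mm y l : ℝ) := Finset.sum_nonneg fun k _ => by positivity
    linarith

end Pool.Agent.HSS
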