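import Pool.Agent.HSS.Defs

/-! # Project HSS, row HSS-15b: the bound of `kap` -/

set_option autoImplicit false

namespace Pool.Agent.HSS

private theorem hss15b_aux (m : ℕ) : ∀ s : Finset ℕ, (∀ p ∈ s, p.Prime ∧ p ≤ 2 * m + 2) →
    kap s ≤ 2 * √(2 * (m : ℝ) + 1) := by
  induction m with
  | zero =>
    intro s hs
    have h1 : s ⊆ {2} := by
      intro p hp
      rw [Finset.mem_singleton]
      have := (hs p hp).2
      have := (hs p hp).1.two_le
      omega
    have h2 : √(2 * ((0 : ℕ) : ℝ) + 1) = 1 := by simp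
    rw [h2]
    rcases Finset.subset_singleton_iff.1 h1 with h | h
    · rw [h]
      unfold kap
      norm_num
    · rw [h]
      unfold kap
      norm_num
  | succ m ih =>
    intro s hs
    have hm : (0 : ℝ) ≤ (m : ℝ) := Nat.cast_nonneg m
    have h1 := ih (s.erase (2 * m + 3)) (by
      intro p hp
      rw [Finset.mem_erase] at hp
      refine ⟨(hs p hp.2).1, ?_⟩
      have h2 := (hs p hp.2).2
      by_contra h3
      have h4 : p = 2 * m + 4 := by omega
      have h5 := (hs p hp.2).1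
      have h6 := (Nat.Prime.even_iff h5).1 ⟨m + 2, by omega⟩
      omega)
    have h0 : 0 ≤ kap (s.erase (2 * m + 3)) := by
      refine Finset.prod_nonneg fun p hp => ?_
      have h5 := (hs p (Finset.mem_of_mem_erase hp)).1.two_le
      have h6 : (2 : ℝ) ≤ p := by exact_mod_cast h5
      exact div_nonneg (by linarith) (by linarith)
    have hf : (1 : ℝ) ≤ (2 * (m : ℝ) + 3) / (2 * (m : ℝ) + 2) := by
      rw [le_div_iff₀ (by linarith)]
      linarith
    have h7 : kap s ≤ kap (s.erase (2 * m + 3)) * ((2 * (m : ℝ) + 3) / (2 * (m : ℝ) + 2)) := by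
      by_cases h : 2 * m + 3 ∈ s
      · unfold kap
        rw [← Finset.prod_erase_mul s _ h]
        push_cast
        apply le_of_eq
        congr 2
        ring
      · rw [Finset.erase_eq_of_notMem h] at h0 ⊢
        nlinarith
    have h8 : √(2 * (m : ℝ) + 1) * ((2 * (m : ℝ) + 3) / (2 * (m : ℝ) + 2)) ≤
        √(2 * ((m + 1 : ℕ) : ℝ) + 1) := by
      apply Real.le_sqrt_of_sq_le
      rw [mul_pow, Real.sq_sqrt (by linarith), div_pow, ← mul_div_assoc, div_le_iff₀ (by positivity)]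
      push_cast
      nlinarith
    calc kap s ≤ kap (s.erase (2 * m + 3)) * ((2 * (m : ℝ) + 3) / (2 * (m : ℝ) + 2)) := h7
      _ ≤ (2 * √(2 * (m : ℝ) + 1)) * ((2 * (m : ℝ) + 3) / (2 * (m : ℝ) + 2)) :=
        mul_le_mul_of_nonneg_right h1 (by linarith)
      _ = 2 * (√(2 * (m : ℝ) + 1) * ((2 * (m : ℝ) + 3) / (2 * (m : ℝ) + 2))) := by ring
      _ ≤ 2 * √(2 * ((m + 1 : ℕ) : ℝ) + 1) := by linarith

/-- (by `∏ j ≤ m, (2j+1)/(2j) ≤ √(2m+1)`; the odd primes below `y` are among the `2j+1`) -/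
theorem kap_le (y : ℕ) (hy : 3 ≤ y) (s : Finset ℕ) (hs : ∀ p ∈ s, p.Prime ∧ p < y) :
    kap s ≤ 2 * √(y : ℝ) := by
  have h1 := hss15b_aux ((y - 1) / 2) s (fun p hp => ⟨(hs p hp).1, by
    have := (hs p hp).2
    omega⟩)
  have h2 : 2 * (((y - 1) / 2 : ℕ) : ℝ) + 1 ≤ (y : ℝ) := by
    have h3 : 2 * ((y - 1) / 2) + 1 ≤ y := by omega
    exact_mod_cast h3
  have h3 := Real.sqrt_le_sqrt h2
  linarith

end Pool.Agent.HSS
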