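import Pool.Agent.HSS.NumB
import Pool.Agent.HSS.KapL

/-! # Project HSS, row HSS-15: the primes from 79 on -/

set_option autoImplicit false

namespace Pool.Agent.HSS

namespace NumDX

theorem card_odd (y : ℕ) (hy : y.Prime) (h1 : 79 ≤ y) (s : Finset ℕ)
    (hs : ∀ p ∈ s, p.Prime ∧ p < y) : (s.erase 2).card ≤ (y - 1) / 2 := by
  have hodd : y % 2 = 1 := by
    rcases hy.eq_two_or_odd with h | h
    · omega
    · exact h
  have hsub : s.erase 2 ⊆ (Finset.range ((y - 1) / 2)).image (fun k => 2 * k + 1) := by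
    intro p hp
    obtain ⟨hp2, hps⟩ := Finset.mem_erase.1 hp
    obtain ⟨hpp, hpy⟩ := hs p hps
    have hpo : p % 2 = 1 := by
      rcases hpp.eq_two_or_odd with h | h
      · exact absurd h hp2
      · exact h
    rw [Finset.mem_image]
    refine ⟨p / 2, Finset.mem_range.2 (by omega), by omega⟩
  calc (s.erase 2).card ≤ ((Finset.range ((y - 1) / 2)).image (fun k => 2 * k + 1)).card :=
        Finset.card_le_card hsub
    _ ≤ (Finset.range ((y - 1) / 2)).card := Finset.card_image_le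
    _ = (y - 1) / 2 := Finset.card_range _

theorem harm (y n : ℕ) (hy : 1 ≤ y) :
    ∑ k ∈ Finset.range n, 1 / (2 * ((k : ℝ) + 1) * (y : ℝ) + 1) ≤
      (1 + Real.log n) / (2 * y) := by
  have hy' : (0 : ℝ) < y := by exact_mod_cast hy
  have h1 : ∑ k ∈ Finset.range n, 1 / (2 * ((k : ℝ) + 1) * (y : ℝ) + 1) ≤
      ∑ k ∈ Finset.range n, (1 / (2 * (y : ℝ))) * ((k : ℝ) + 1)⁻¹ := by
    apply Finset.sum_le_sum
    intro k _
    have hk : (0 : ℝ) < (k : ℝ) + 1 := by positivity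
    rw [← one_div, one_div_mul_one_div]
    apply one_div_le_one_div_of_le
    · positivity
    · nlinarith
  have h2 : ((harmonic n : ℚ) : ℝ) = ∑ k ∈ Finset.range n, ((k : ℝ) + 1)⁻¹ := by
    unfold harmonic
    push_cast
    rfl
  have h3 := harmonic_le_one_add_log n
  rw [h2] at h3
  rw [← Finset.mul_sum] at h1
  refine h1.trans ?_
  rw [div_eq_mul_one_div (1 + Real.log n), mul_comm (1 + Real.log n)]
  apply mul_le_mul_of_nonneg_left h3
  positivity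

theorem final {Y S L : ℝ} (hY : 79 ≤ Y) (hS : 0 ≤ S) (hSY : S ^ 2 = Y) (hL : L ≤ S / 4 + 1.4658) :
    2 * S * (1 / (Y - 1) + (1 / (Y + 1) + (1 + L) / (2 * Y))) < 1 := by
  have hS8 : 8.7 < S := by nlinarith
  have hSpos : 0 < S := by linarith
  subst hSY
  have h1 : 2 * S * (1 / (S ^ 2 - 1) + (1 / (S ^ 2 + 1) + (1 + L) / (2 * S ^ 2))) =
      4 * S ^ 3 / (S ^ 4 - 1) + (1 + L) / S := by
    have ha : S ^ 2 - 1 ≠ 0 := by nlinarith
    have hb : S ^ 2 + 1 ≠ 0 := by nlinarith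
    have hc : S ^ 4 - 1 ≠ 0 := by
      have : S ^ 4 - 1 = (S ^ 2 - 1) * (S ^ 2 + 1) := by ring
      rw [this]
      exact mul_ne_zero ha hb
    have hd : S ≠ 0 := hSpos.ne'
    field_simp
    ring
  rw [h1]
  have h4 : 6241 ≤ S ^ 4 := by nlinarith
  have h2 : 4 * S ^ 3 / (S ^ 4 - 1) ≤ 4.001 / S := by
    rw [div_le_div_iff₀ (by linarith) hSpos]
    nlinarith
  have h3 : (1 + L) / S ≤ 2.4658 / S + 1 / 4 := by
    rw [div_add' _ _ _ hSpos.ne']
    apply div_le_div_of_nonneg_right _ hSpos.le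
    linarith
  have h5 : 4.001 / S + 2.4658 / S < 0.75 := by
    rw [← add_div, div_lt_iff₀ hSpos]
    nlinarith
  linarith

end NumDX

/-- (`sum_mm` with `n = (y - 1) / 2`, `harmonic_le_one_add_log`; it remains to show
`5.001 + log (y / 2) ≤ √y`, from `log (y / 2) = 2 log (√y / 8) + 5 log 2 ≤ √y / 4 - 2 + 3.4658`) -/
theorem lam_large (y : ℕ) (hy : y.Prime) (h1 : 79 ≤ y) (s : Finset ℕ)
    (hs : ∀ p ∈ s, p.Prime ∧ p < y) :
    kap s * (1 / ((y : ℝ) - 1) + ∑ l ∈ s, 1 / (mm y l : ℝ)) < 1 := by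
  have hY : (79 : ℝ) ≤ (y : ℝ) := by exact_mod_cast h1
  have hYpos : (0 : ℝ) < (y : ℝ) := by linarith
  have hk := kap_le y (by omega) s hs
  have hsum := sum_mm y hy (by omega) s hs _ (NumDX.card_odd y hy h1 s hs)
  have hh := NumDX.harm y ((y - 1) / 2) (by omega)
  set S : ℝ := √(y : ℝ) with hSdef
  have hS0 : 0 < S := Real.sqrt_pos.2 hYpos
  have hSY : S ^ 2 = (y : ℝ) := Real.sq_sqrt hYpos.le
  have hn0 : (0 : ℝ) < (((y - 1) / 2 : ℕ) : ℝ) := by
    have : 0 < (y - 1) / 2 := by omega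
    exact_mod_cast this
  have hn1 : (((y - 1) / 2 : ℕ) : ℝ) ≤ (y : ℝ) / 2 := by
    have h2 : 2 * ((y - 1) / 2) ≤ y := by omega
    have h3 : (2 : ℝ) * (((y - 1) / 2 : ℕ) : ℝ) ≤ (y : ℝ) := by exact_mod_cast h2
    linarith
  have hlog : Real.log (((y - 1) / 2 : ℕ) : ℝ) ≤ S / 4 + 1.4658 := by
    have h2 : Real.log (((y - 1) / 2 : ℕ) : ℝ) ≤ Real.log ((y : ℝ) / 2) := Real.log_le_log hn0 hn1
    have h3 : (y : ℝ) / 2 = (S / 8) ^ 2 * 2 ^ 5 := by
      rw [← hSY]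
      ring
    have h4 : Real.log ((y : ℝ) / 2) = 2 * Real.log (S / 8) + 5 * Real.log 2 := by
      rw [h3, Real.log_mul (by positivity) (by positivity), Real.log_pow, Real.log_pow]
      norm_num
    have h5 : Real.log (S / 8) ≤ S / 8 - 1 := Real.log_le_sub_one_of_pos (by positivity)
    have h6 := Real.log_two_lt_d9
    linarith
  have hfin := NumDX.final hY hS0.le hSY hlog
  have hle : 1 / ((y : ℝ) - 1) + ∑ l ∈ s, 1 / (mm y l : ℝ) ≤
      1 / ((y : ℝ) - 1) + (1 / ((y : ℝ) + 1) +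
        (1 + Real.log (((y - 1) / 2 : ℕ) : ℝ)) / (2 * (y : ℝ))) := by
    linarith
  have hnn : 0 ≤ 1 / ((y : ℝ) - 1) + ∑ l ∈ s, 1 / (mm y l : ℝ) := by
    have h2 : (0 : ℝ) < (y : ℝ) - 1 := by linarith
    have h3 : 0 ≤ ∑ l ∈ s, 1 / (mm y l : ℝ) := Finset.sum_nonneg fun l _ => by positivity
    have h4 : 0 < 1 / ((y : ℝ) - 1) := by positivity
    linarith
  calc kap s * (1 / ((y : ℝ) - 1) + ∑ l ∈ s, 1 / (mm y l : ℝ))
      ≤ 2 * S * (1 / ((y : ℝ) - 1) + ∑ l ∈ s, 1 / (mm y l : ℝ)) :=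
        mul_le_mul_of_nonneg_right hk hnn
    _ ≤ 2 * S * (1 / ((y : ℝ) - 1) + (1 / ((y : ℝ) + 1) +
        (1 + Real.log (((y - 1) / 2 : ℕ) : ℝ)) / (2 * (y : ℝ)))) :=
        mul_le_mul_of_nonneg_left hle (by positivity)
    _ < 1 := hfin

end Pool.Agent.HSS
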