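import Pool.Agent.HSS.Cls
import Pool.Agent.HSS.ClsM

/-! # Project HSS, row HSS-17: the case `y = 7`, `{2, 3, 5}` -/

set_option autoImplicit false

namespace Pool.Agent.HSS

private theorem sev_ord {l k : ℕ} (h0 : l ^ k % 7 = 1 % 7) (hk : 0 < k)
    (h1 : ∀ p : ℕ, p.Prime → p ∣ k → l ^ (k / p) % 7 ≠ 1 % 7) : orderOf (l : ZMod 7) = k := by
  apply orderOf_eq_of_pow_and_pow_div_prime hk
  · have h2 : ((l ^ k : ℕ) : ZMod 7) = ((1 : ℕ) : ZMod 7) :=
      (ZMod.natCast_eq_natCast_iff' _ _ _).mpr h0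
    push_cast at h2
    exact h2
  · intro p hp hpk h3
    have h4 : ((l ^ (k / p) : ℕ) : ZMod 7) = ((1 : ℕ) : ZMod 7) := by push_cast; exact h3
    exact h1 p hp hpk ((ZMod.natCast_eq_natCast_iff' _ _ _).mp h4)

private theorem sev_dvd3 {p : ℕ} (hp : p.Prime) (h : p ∣ 3) : p = 3 :=
  (Nat.prime_dvd_prime_iff_eq hp Nat.prime_three).mp h

private theorem sev_dvd6 {p : ℕ} (hp : p.Prime) (h : p ∣ 6) : p = 2 ∨ p = 3 := by
  have h1 : p ∣ 2 * 3 := h
  rcases (Nat.Prime.dvd_mul hp).mp h1 with h2 | h2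
  · exact Or.inl ((Nat.prime_dvd_prime_iff_eq hp Nat.prime_two).mp h2)
  · exact Or.inr ((Nat.prime_dvd_prime_iff_eq hp Nat.prime_three).mp h2)

private theorem sev_mm2 : mm 7 2 = 8 := by
  have h : orderOf ((2 : ℕ) : ZMod 7) = 3 := by
    apply sev_ord (by norm_num) (by norm_num)
    intro p hp hd
    rw [sev_dvd3 hp hd]
    norm_num
  rw [mm, h]
  norm_num

private theorem sev_mm3 : mm 7 3 = 729 := by
  have h : orderOf ((3 : ℕ) : ZMod 7) = 6 := by
    apply sev_ord (by norm_num) (by norm_num)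
    intro p hp hd
    rcases sev_dvd6 hp hd with h1 | h1 <;> rw [h1] <;> norm_num
  rw [mm, h]
  norm_num

private theorem sev_mm5 : mm 7 5 = 15625 := by
  have h : orderOf ((5 : ℕ) : ZMod 7) = 6 := by
    apply sev_ord (by norm_num) (by norm_num)
    intro p hp hd
    rcases sev_dvd6 hp hd with h1 | h1 <;> rw [h1] <;> norm_num
  rw [mm, h]
  norm_num

private theorem sev_kap : kap {2, 3, 5} = 15 / 4 := by
  rw [kap, Finset.prod_insert (by decide), Finset.prod_insert (by decide),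
    Finset.prod_singleton]
  norm_num

/-- `kap = 15/4`, `mm 7 2 = 8`, `mm 7 3 = 729`, `mm 7 5 = 15625`. Split `U` into `Ip`: `r i` is a
power of `7` (`≠ 1` as `7 ∣ r i` or `mm 7 l ∣ r i`), `In`: `7 ∣ r i`, `r i` not a power of `7`, `I2`:
`¬ 7 ∣ r i`, `8 ∣ r i`, `Ie` the rest, with sums `Tp`, `Tn`, `T2`, `Te`. `Tp ≤ 5/8 D Ip` (`cls_y`),
`Tp + Tn ≤ 5/8 w` (`cls_y` for `Ip ∪ In`), `Tn ≤ 11/24 w` (`cls_y'`), `T2 ≤ 15/32 D I2` (`cls_m`),
`D Ip + D I2 ≤ w` (`hD3`), `Te ≤ 15/4 (1/729 + 1/15625) w` (`cls_m`); and `Tp + Tn + T2 + Te = w`.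
One quarter of the second plus three quarters of (first + third) plus the others: `w ≤ .9742 w`. -/
theorem sev_false {ι : Type} (e m : ℕ) (hm : m.primeFactors = {2, 3, 5}) (d : Dat ι 7 e m) :
    False := by
  classical
  have h7 : Nat.Prime 7 := by norm_num
  have hm0 : m ≠ 0 := by
    rintro rfl
    have h2 : (2 : ℕ) ∈ ({2, 3, 5} : Finset ℕ) := by decide
    rw [← hm] at h2
    simp at h2
  have h7m : ¬ 7 ∣ m := by
    intro h
    have h1 : (7 : ℕ) ∈ m.primeFactors := Nat.mem_primeFactors.mpr ⟨h7, h, hm0⟩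
    rw [hm] at h1
    revert h1
    decide
  have hkap : kap m.primeFactors = 15 / 4 := by rw [hm]; exact sev_kap
  -- the divisors prime to 7
  have hdm : ∀ i ∈ d.U, ¬ 7 ∣ d.r i → d.q i * d.r i ∣ m := by
    intro i hi hri
    have h1 : Nat.Coprime (d.q i * d.r i) (7 ^ e) := by
      apply Nat.Coprime.pow_right
      rw [Nat.coprime_comm]
      refine (Nat.Prime.coprime_iff_not_dvd h7).mpr fun h2 => ?_
      rcases (Nat.Prime.dvd_mul h7).mp h2 with h3 | h3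
      · exact d.hq i hi h3
      · exact hri h3
    exact h1.dvd_of_dvd_mul_left (d.hd i hi)
  -- the classes
  obtain ⟨Y, hY⟩ : ∃ Y : Finset ι, Y = d.U.filter fun i => 7 ∣ d.r i := ⟨_, rfl⟩
  obtain ⟨N, hN⟩ : ∃ N : Finset ι, N = d.U.filter fun i => ¬ 7 ∣ d.r i := ⟨_, rfl⟩
  obtain ⟨Ip, hIp⟩ : ∃ Ip : Finset ι, Ip = Y.filter fun i => ∃ k, d.r i = 7 ^ k := ⟨_, rfl⟩
  obtain ⟨In, hIn⟩ : ∃ In : Finset ι, In = Y.filter fun i => ¬ ∃ k, d.r i = 7 ^ k := ⟨_, rfl⟩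
  obtain ⟨I2, hI2⟩ : ∃ I2 : Finset ι, I2 = N.filter fun i => 8 ∣ d.r i := ⟨_, rfl⟩
  obtain ⟨N', hN'⟩ : ∃ N' : Finset ι, N' = N.filter fun i => ¬ 8 ∣ d.r i := ⟨_, rfl⟩
  obtain ⟨I3, hI3⟩ : ∃ I3 : Finset ι, I3 = N'.filter fun i => 729 ∣ d.r i := ⟨_, rfl⟩
  obtain ⟨I5, hI5⟩ : ∃ I5 : Finset ι, I5 = N'.filter fun i => ¬ 729 ∣ d.r i := ⟨_, rfl⟩
  have hYU : Y ⊆ d.U := by rw [hY]; exact Finset.filter_subset _ _
  have hNU : N ⊆ d.U := by rw [hN]; exact Finset.filter_subset _ _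
  have hIpY : Ip ⊆ Y := by rw [hIp]; exact Finset.filter_subset _ _
  have hInY : In ⊆ Y := by rw [hIn]; exact Finset.filter_subset _ _
  have hI2N : I2 ⊆ N := by rw [hI2]; exact Finset.filter_subset _ _
  have hN'N : N' ⊆ N := by rw [hN']; exact Finset.filter_subset _ _
  have hI3N : I3 ⊆ N := by rw [hI3]; exact (Finset.filter_subset _ _).trans hN'N
  have hI5N : I5 ⊆ N := by rw [hI5]; exact (Finset.filter_subset _ _).trans hN'N
  have hY7 : ∀ i ∈ Y, 7 ∣ d.r i := fun i hi => by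
    rw [hY, Finset.mem_filter] at hi; exact hi.2
  have hN7 : ∀ i ∈ N, ¬ 7 ∣ d.r i := fun i hi => by
    rw [hN, Finset.mem_filter] at hi; exact hi.2
  -- the sums
  obtain ⟨f, hf⟩ : ∃ f : ι → ℝ, f = fun i => 1 / ((d.q i : ℝ) * (d.r i : ℝ)) := ⟨_, rfl⟩
  have hsum : ∑ i ∈ Ip, f i + ∑ i ∈ In, f i + (∑ i ∈ I2, f i + (∑ i ∈ I3, f i + ∑ i ∈ I5, f i)) =
      d.w := by
    rw [hI3, hI5, Finset.sum_filter_add_sum_filter_not, hN', hI2,
      Finset.sum_filter_add_sum_filter_not, hIp, hIn, Finset.sum_filter_add_sum_filter_not, hY, hN,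
      Finset.sum_filter_add_sum_filter_not, hf]
    exact d.hw
  have hYsum : ∑ i ∈ Ip, f i + ∑ i ∈ In, f i = ∑ i ∈ Y, f i := by
    rw [hIp, hIn, Finset.sum_filter_add_sum_filter_not]
  have hw0 : 0 < d.w := by
    rw [← d.hw]
    refine Finset.sum_pos (fun i hi => ?_) d.hne
    have h1 : d.q i * d.r i ≠ 0 := by
      intro h2
      have h3 := d.hd i hi
      rw [h2, zero_dvd_iff] at h3
      exact (Nat.mul_ne_zero (pow_ne_zero _ (by norm_num)) hm0) h3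
    have h2 : (0 : ℝ) < ((d.q i * d.r i : ℕ) : ℝ) := by
      exact_mod_cast Nat.pos_of_ne_zero h1
    push_cast at h2
    exact one_div_pos.mpr h2
  -- the inequalities
  have cY : ∀ V ⊆ Y, ∑ i ∈ V, f i ≤ 5 / 8 * d.D V := by
    intro V hV
    have h1 := cls_y V d.q d.r 7 e m h7 hm0 h7m (fun i hi => d.hd i (hYU (hV hi)))
      (fun i hi => d.hq i (hYU (hV hi))) (fun i hi => hY7 i (hV hi))
      (fun i hi j hj => d.hinj i (hYU (hV hi)) j (hYU (hV hj)))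
    have h2 := d.hD1 V (hV.trans hYU)
    rw [hkap] at h1
    rw [hf]
    push_cast at h1
    linarith
  have cN : ∑ i ∈ In, f i ≤ 11 / 24 * d.D In := by
    have h1 := cls_y' In d.q d.r 7 e m h7 hm0 h7m (fun i hi => d.hd i (hYU (hInY hi)))
      (fun i hi => d.hq i (hYU (hInY hi))) (fun i hi => hY7 i (hInY hi))
      (fun i hi k hk => by
        rw [hIn, Finset.mem_filter] at hi
        exact hi.2 ⟨k, hk⟩)
      (fun i hi j hj => d.hinj i (hYU (hInY hi)) j (hYU (hInY hj)))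
    have h2 := d.hD1 In (hInY.trans hYU)
    rw [hkap] at h1
    rw [hf]
    push_cast at h1
    linarith
  have cM : ∀ k : ℕ, 0 < k → ∀ V ⊆ N, (∀ i ∈ V, k ∣ d.r i) →
      ∑ i ∈ V, f i ≤ 15 / 4 / (k : ℝ) * d.D V := by
    intro k hk V hV hkV
    have h1 := cls_m V d.q d.r m k hm0 hk.ne'
      (fun i hi => hdm i (hNU (hV hi)) (hN7 i (hV hi))) hkV
      (fun i hi j hj => d.hinj i (hNU (hV hi)) j (hNU (hV hj)))
    have h2 := d.hD1 V (hV.trans hNU)
    rw [hkap] at h1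
    rw [hf]
    have h3 : (0 : ℝ) ≤ 15 / 4 / (k : ℝ) := by positivity
    exact h1.trans (mul_le_mul_of_nonneg_left h2 h3)
  have t1 := cY Ip hIpY
  have t2 := cY Y (Finset.Subset.refl _)
  have t3 := cM 8 (by norm_num) I2 hI2N (fun i hi => by
    rw [hI2, Finset.mem_filter] at hi; exact hi.2)
  have t4 := cM 729 (by norm_num) I3 hI3N (fun i hi => by
    rw [hI3, Finset.mem_filter] at hi; exact hi.2)
  have t5 := cM 15625 (by norm_num) I5 hI5N (fun i hi => by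
    have hiN := hI5N hi
    rw [hI5, Finset.mem_filter, hN', Finset.mem_filter] at hi
    rcases d.hr i (hNU hiN) with h1 | ⟨l, hl, hlr⟩
    · exact absurd h1 (hN7 i hiN)
    · rw [hm] at hl
      rw [Finset.mem_insert, Finset.mem_insert, Finset.mem_singleton] at hl
      rcases hl with rfl | rfl | rfl
      · rw [sev_mm2] at hlr; exact absurd hlr hi.1.2
      · rw [sev_mm3] at hlr; exact absurd hlr hi.2
      · rw [sev_mm5] at hlr; exact hlr)
  have u2 := d.hD2 Y hYU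
  have u3 := d.hD2 In (hInY.trans hYU)
  have u4 := d.hD2 I3 (hI3N.trans hNU)
  have u5 := d.hD2 I5 (hI5N.trans hNU)
  have u6 := d.hD3 Ip (hIpY.trans hYU) I2 (hI2N.trans hNU) (fun i hi j hj => by
    rw [hIp, Finset.mem_filter] at hi
    obtain ⟨k, hk⟩ := hi.2
    rw [hk]
    exact Nat.Coprime.pow_left _
      ((Nat.Prime.coprime_iff_not_dvd h7).mpr (hN7 j (hI2N hj))))
  push_cast at t3 t4 t5
  linarith

end Pool.Agent.HSS
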