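import Pool.Agent.HSS.Mk
import Pool.Agent.HSS.Gen
import Pool.Agent.HSS.Sev
import Pool.Agent.HSS.NumA
import Pool.Agent.HSS.NumC
import Pool.Agent.HSS.NumD
import Pool.Agent.HL.Base
import Pool.Agent.HL.Quot

/-! # Project HSS, row HSS-19: Herzog-Schoenheim for solvable groups -/

set_option autoImplicit false

namespace Pool.Agent.HSS

open Pool.Agent.HL

/-- the bound for all primes from 5 on -/
theorem lam_all (y : ℕ) (hy : y.Prime) (h1 : 5 ≤ y) (s : Finset ℕ)
    (hs : ∀ p ∈ s, p.Prime ∧ p < y) (h7 : y = 7 → s ≠ {2, 3, 5}) :
    kap s * (1 / ((y : ℝ) - 1) + ∑ l ∈ s, 1 / (mm y l : ℝ)) < 1 := by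
  rcases lt_or_ge y 17 with h | h
  · have h2 : y = 5 ∨ y = 7 ∨ y = 11 ∨ y = 13 := by
      interval_cases y <;> first | omega | (exact absurd hy (by norm_num))
    exact lam_small y h2 s hs h7
  · rcases lt_or_ge y 79 with h' | h'
    · exact lam_mid y hy h h' s hs
    · exact lam_large y hy h' s hs

theorem hs_solvable (G : Type) [Group G] [Finite G] [Group.IsSolvable G] : HS G := by
  classical
  have key : ∀ n : ℕ, ∀ (G : Type) [Group G] [Finite G] [Group.IsSolvable G], Nat.card G = n →
      HS G := by
    intro n
    induction n using Nat.strong_induction_on with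
    | _ n ih =>
      intro G _ _ _ hcard
      have hne : Nat.card G ≠ 0 := Nat.card_pos.ne'
      by_cases h23 : (Nat.card G).primeFactors ⊆ {2, 3}
      · exact hs_base {2, 3} (by
          intro p hp
          simp only [Finset.mem_insert, Finset.mem_singleton] at hp
          rcases hp with rfl | rfl <;> norm_num) (Or.inl (by decide)) G h23
      · -- the largest prime
        have hne' : (Nat.card G).primeFactors.Nonempty := by
          rw [Finset.nonempty_iff_ne_empty]
          intro h
          rw [h] at h23
          exact h23 (Finset.empty_subset _)
        set y := (Nat.card G).primeFactors.max' hne' with hy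
        have hymem : y ∈ (Nat.card G).primeFactors := Finset.max'_mem _ _
        have hyp : y.Prime := Nat.prime_of_mem_primeFactors hymem
        have hydvd : y ∣ Nat.card G := Nat.dvd_of_mem_primeFactors hymem
        have hymax : ∀ p ∈ (Nat.card G).primeFactors, p ≤ y := fun p hp => Finset.le_max' _ p hp
        have hy5 : 5 ≤ y := by
          by_contra hlt
          push Not at hlt
          apply h23
          intro p hp
          have h1 := hymax p hp
          have h2 := (Nat.prime_of_mem_primeFactors hp).two_le
          have h3 : p = 2 ∨ p = 3 ∨ p = 4 := by omega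
          simp only [Finset.mem_insert, Finset.mem_singleton]
          rcases h3 with h | h | h
          · exact Or.inl h
          · exact Or.inr h
          · exact absurd (Nat.prime_of_mem_primeFactors hp) (by rw [h]; norm_num)
        obtain ⟨e, m, hym, hem⟩ := Nat.exists_eq_pow_mul_and_not_dvd hne y hyp.ne_one
        have hm : m ≠ 0 := by
          rintro rfl
          exact hym (dvd_zero y)
        intro ι _ H a hH hp
        by_contra hcon
        have hcon' := hcon
        push Not at hcon'
        have hinj : ∀ i j, (H i).index = (H j).index → i = j := by
          intro i j hij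
          by_contra hne
          exact hcon' i j hne hij
        by_cases hall : ∀ i, Ry G y ≤ H i
        · -- pass to the quotient
          have : (Ry G y).Normal := Ry_normal G y
          have hlt : Nat.card (G ⧸ Ry G y) < n := by
            have h1 := Subgroup.card_eq_card_quotient_mul_card_subgroup (Ry G y)
            have h2 : 1 < Nat.card (Ry G y) := by
              rw [Subgroup.one_lt_card_iff_ne_bot]
              exact Ry_ne_bot G y hyp hydvd
            have h3 : 0 < Nat.card (G ⧸ Ry G y) := Nat.card_pos
            rw [← hcard, h1]
            exact lt_mul_of_one_lt_right h3 h2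
          exact hcon (hs_quot (Ry G y) (ih _ hlt (G ⧸ Ry G y) rfl) H a hall hH hp)
        · push Not at hall
          obtain ⟨d⟩ := mk_dat G y e m hyp hem hym H a hp hinj hall
          by_cases h7 : y = 7 ∧ m.primeFactors = {2, 3, 5}
          · obtain ⟨h7, h235⟩ := h7
            rw [h7] at d
            exact sev_false e m h235 d
          · have hs : ∀ p ∈ m.primeFactors, p.Prime ∧ p < y := by
              intro p hp
              have h1 : p ∣ m := Nat.dvd_of_mem_primeFactors hp
              refine ⟨Nat.prime_of_mem_primeFactors hp, lt_of_le_of_ne ?_ ?_⟩
              · apply hymax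
                rw [hem]
                exact Nat.primeFactors_mono (dvd_mul_left m _) (by rw [← hem]; exact hne) hp
              · rintro rfl
                exact hym h1
            exact gen_false y e m hyp hm hym d (lam_all y hyp hy5 _ hs fun h h' => h7 ⟨h, h'⟩)
  exact key _ G rfl

end Pool.Agent.HSS
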