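import Pool.Agent.HSS.Om
import Pool.Agent.HSS.Prd

/-! # Project HSS, row HSS-3: the combinatorial inequality behind Rogers' inequality -/

set_option autoImplicit false

namespace Pool.Agent.HSS

/-- For each divisor `d` of `M'` let `e` be minimal with `p ^ α i * u i ∣ p ^ e * d` for some `i`
(if there is none the left side contributes `0`); the left side contributes `p ^ (-e)`, the right
side at least `∑ t ≥ α i, ∑ s ≥ e - α i` of the weights, which is `p ^ (-α i) p ^ (-(e - α i))`. -/
theorem comb (p E M' : ℕ) (hp : p.Prime) (hM' : M' ≠ 0) (hpM : ¬ p ∣ M') {ι : Type}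
    (α u : ι → ℕ) :
    del (p ^ E * M') {x | ∃ i, x = p ^ α i * u i} ≤
      ∑ t ∈ Finset.range (E + 1), om (p ^ E) (p ^ t) *
        del (p ^ E * M') {x | ∃ i, α i ≤ t ∧ x = u i} := by
  classical
  rw [del_mul p E M' hp hM' hpM]
  simp only [del_mul p E M' hp hM' hpM, Finset.mul_sum]
  rw [Finset.sum_comm (s := Finset.range (E + 1)) (t := M'.divisors)]
  refine Finset.sum_le_sum fun d hd => ?_
  have hdM : d ∣ M' := Nat.dvd_of_mem_divisors hd
  have hpd : ¬ p ∣ d := fun h => hpM (h.trans hdM)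
  have hWn : ∀ e, 0 ≤ om (p ^ E) (p ^ e) := fun e => om_nonneg _ _
  have hdn : 0 ≤ om M' d := om_nonneg _ _
  have hppos : (0 : ℝ) < p := by exact_mod_cast hp.pos
  rw [← Finset.mul_sum]
  by_cases hex : ∃ e, e ≤ E ∧ ∃ i, p ^ α i * u i ∣ p ^ e * d
  · set e0 := Nat.find hex with he0
    obtain ⟨he0E, i, hi⟩ := Nat.find_spec hex
    rw [← he0] at he0E hi
    have hαe : α i ≤ e0 := by
      have h1 : p ^ α i ∣ p ^ e0 * d := (Dvd.intro _ rfl).trans hi
      have h2 : (p ^ α i).Coprime d := Nat.Coprime.pow_left _ ((Nat.Prime.coprime_iff_not_dvd hp).2 hpd)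
      have h3 : p ^ α i ∣ p ^ e0 := h2.dvd_of_dvd_mul_right h1
      exact (Nat.pow_dvd_pow_iff_le_right hp.one_lt).1 h3
    have hud : u i ∣ p ^ (e0 - α i) * d := by
      have h1 : p ^ e0 * d = p ^ α i * (p ^ (e0 - α i) * d) := by
        rw [← mul_assoc, ← pow_add, Nat.add_sub_cancel' hαe]
      rw [h1] at hi
      exact Nat.dvd_of_mul_dvd_mul_left (pow_pos hp.pos _) hi
    -- the left side
    have hL : ∑ e ∈ Finset.range (E + 1),
        (if ∃ q ∈ {x | ∃ i, x = p ^ α i * u i}, q ∣ p ^ e * d then om (p ^ E) (p ^ e) else 0) ≤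
        1 / (p : ℝ) ^ e0 := by
      rw [← om_tail p E e0 hp he0E]
      have hsub : Finset.Icc e0 E ⊆ Finset.range (E + 1) := by
        intro e he
        rw [Finset.mem_Icc] at he
        rw [Finset.mem_range]
        omega
      rw [← Finset.sum_subset hsub]
      · refine Finset.sum_le_sum fun e _ => ?_
        split_ifs
        · exact le_refl _
        · exact hWn e
      · intro e he hne
        rw [Finset.mem_range] at he
        rw [Finset.mem_Icc] at hne
        rw [if_neg]
        rintro ⟨q, ⟨j, rfl⟩, hq⟩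
        have h1 : e < e0 := by omega
        exact Nat.find_min hex h1 ⟨by omega, j, hq⟩
    -- the right side
    have hR : 1 / (p : ℝ) ^ e0 ≤ ∑ t ∈ Finset.range (E + 1), ∑ e ∈ Finset.range (E + 1),
        om (p ^ E) (p ^ t) * (if ∃ q ∈ {x | ∃ i, α i ≤ t ∧ x = u i}, q ∣ p ^ e * d
          then om (p ^ E) (p ^ e) else 0) := by
      have h1 : 1 / (p : ℝ) ^ e0 = 1 / (p : ℝ) ^ α i * (1 / (p : ℝ) ^ (e0 - α i)) := by
        rw [one_div_mul_one_div, ← pow_add, Nat.add_sub_cancel' hαe]
      rw [h1, ← om_tail p E (α i) hp (hαe.trans he0E),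
        ← om_tail p E (e0 - α i) hp ((Nat.sub_le _ _).trans he0E), Finset.sum_mul_sum]
      have hsub : ∀ s, Finset.Icc s E ⊆ Finset.range (E + 1) := by
        intro s e he
        rw [Finset.mem_Icc] at he
        rw [Finset.mem_range]
        omega
      have hterm : ∀ t e, 0 ≤ om (p ^ E) (p ^ t) *
          (if ∃ q ∈ {x | ∃ i, α i ≤ t ∧ x = u i}, q ∣ p ^ e * d
            then om (p ^ E) (p ^ e) else 0) := by
        intro t e
        refine mul_nonneg (hWn t) ?_
        split_ifs
        · exact hWn e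
        · exact le_refl _
      calc ∑ t ∈ Finset.Icc (α i) E, ∑ e ∈ Finset.Icc (e0 - α i) E,
            om (p ^ E) (p ^ t) * om (p ^ E) (p ^ e)
          ≤ ∑ t ∈ Finset.Icc (α i) E, ∑ e ∈ Finset.range (E + 1), om (p ^ E) (p ^ t) *
            (if ∃ q ∈ {x | ∃ i, α i ≤ t ∧ x = u i}, q ∣ p ^ e * d
              then om (p ^ E) (p ^ e) else 0) := by
            refine Finset.sum_le_sum fun t ht => ?_
            refine le_trans (Finset.sum_le_sum (g := fun e => om (p ^ E) (p ^ t) *
              (if ∃ q ∈ {x | ∃ i, α i ≤ t ∧ x = u i}, q ∣ p ^ e * d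
                then om (p ^ E) (p ^ e) else 0)) fun e he => ?_)
              (Finset.sum_le_sum_of_subset_of_nonneg (hsub _) fun e _ _ => hterm t e)
            rw [Finset.mem_Icc] at ht he
            rw [if_pos]
            refine ⟨u i, ⟨i, ht.1, rfl⟩, hud.trans ?_⟩
            exact Nat.mul_dvd_mul_right (pow_dvd_pow p he.1) d
        _ ≤ _ := Finset.sum_le_sum_of_subset_of_nonneg (hsub _) fun t _ _ =>
            Finset.sum_nonneg fun e _ => hterm t e
    have hfin : ∑ t ∈ Finset.range (E + 1), om (p ^ E) (p ^ t) * (om M' d *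
        ∑ e ∈ Finset.range (E + 1), (if ∃ q ∈ {x | ∃ i, α i ≤ t ∧ x = u i}, q ∣ p ^ e * d
          then om (p ^ E) (p ^ e) else 0)) =
        om M' d * ∑ t ∈ Finset.range (E + 1), ∑ e ∈ Finset.range (E + 1),
        om (p ^ E) (p ^ t) * (if ∃ q ∈ {x | ∃ i, α i ≤ t ∧ x = u i}, q ∣ p ^ e * d
          then om (p ^ E) (p ^ e) else 0) := by
      rw [Finset.mul_sum]
      refine Finset.sum_congr rfl fun t _ => ?_
      rw [← Finset.mul_sum]
      ring
    refine le_trans (mul_le_mul_of_nonneg_left (hL.trans hR) hdn) (le_of_eq ?_)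
    rw [← hfin]
    refine Finset.sum_congr rfl fun t _ => ?_
    rw [Finset.mul_sum, Finset.mul_sum]
  · have h0 : ∑ e ∈ Finset.range (E + 1),
        (if ∃ q ∈ {x | ∃ i, x = p ^ α i * u i}, q ∣ p ^ e * d then om (p ^ E) (p ^ e) else 0) =
        0 := by
      refine Finset.sum_eq_zero fun e he => ?_
      rw [Finset.mem_range] at he
      rw [if_neg]
      rintro ⟨q, ⟨j, rfl⟩, hq⟩
      exact hex ⟨e, by omega, j, hq⟩
    rw [h0, mul_zero]
    refine Finset.sum_nonneg fun t _ => Finset.sum_nonneg fun e _ => ?_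
    refine mul_nonneg (hWn t) (mul_nonneg hdn ?_)
    split_ifs
    · exact hWn e
    · exact le_refl _

end Pool.Agent.HSS
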