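import Pool.Agent.HSS.Defs

/-! # Project HSS, row HSS-9: the subgroup generated by the elements of `y`-power order -/

set_option autoImplicit false

namespace Pool.Agent.HSS

/-- (compare `Pool.Agent.HL.exists_R`, which has almost the same proof) -/
theorem Ry_normal (G : Type) [Group G] (y : ℕ) : (Ry G y).Normal := by
  refine ⟨?_⟩
  intro n hn g
  unfold Ry at hn ⊢
  induction hn using Subgroup.closure_induction with
  | mem x hx =>
    obtain ⟨k, hk⟩ := hx
    refine Subgroup.subset_closure ⟨k, ?_⟩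
    rw [conj_pow, hk, mul_one, mul_inv_cancel]
  | one => rw [mul_one, mul_inv_cancel]; exact Subgroup.one_mem _
  | mul x y _ _ hx hy =>
    have : g * (x * y) * g⁻¹ = (g * x * g⁻¹) * (g * y * g⁻¹) := by group
    rw [this]; exact Subgroup.mul_mem _ hx hy
  | inv x _ hx =>
    have : g * x⁻¹ * g⁻¹ = (g * x * g⁻¹)⁻¹ := by group
    rw [this]; exact Subgroup.inv_mem _ hx

theorem Ry_index (G : Type) [Group G] [Finite G] (y : ℕ) (hy : y.Prime) : ¬ y ∣ (Ry G y).index := by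
  intro hdvd
  have : Fact y.Prime := ⟨hy⟩
  have hN : (Ry G y).Normal := Ry_normal G y
  have hdvd' : y ∣ Nat.card (G ⧸ Ry G y) := hdvd
  obtain ⟨x, hx⟩ := exists_prime_orderOf_dvd_card' y hdvd'
  obtain ⟨g, rfl⟩ := QuotientGroup.mk_surjective x
  have hn0 : orderOf g ≠ 0 := (orderOf_pos g).ne'
  obtain ⟨k, m, hm, hkm⟩ := Nat.exists_eq_pow_mul_and_not_dvd hn0 y hy.ne_one
  have hmem : g ^ m ∈ Ry G y := by
    refine Subgroup.subset_closure ⟨k, ?_⟩
    rw [← pow_mul, mul_comm m, ← hkm]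
    exact pow_orderOf_eq_one g
  have h1 : ((g : G ⧸ Ry G y)) ^ m = 1 := by
    rw [← QuotientGroup.mk_pow]
    exact (QuotientGroup.eq_one_iff _).2 hmem
  have h2 : orderOf ((g : G ⧸ Ry G y)) ∣ m := orderOf_dvd_of_pow_eq_one h1
  rw [hx] at h2
  exact hm h2

theorem Ry_top (G : Type) [Group G] (y : ℕ) :
    Subgroup.closure {g : Ry G y | ∃ k : ℕ, g ^ (y ^ k) = 1} = ⊤ := by
  have h := Subgroup.closure_closure_coe_preimage (k := {g : G | ∃ k : ℕ, g ^ (y ^ k) = 1})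
  have h2 : {g : Ry G y | ∃ k : ℕ, g ^ (y ^ k) = 1} =
      ((↑) : Ry G y → G) ⁻¹' {g : G | ∃ k : ℕ, g ^ (y ^ k) = 1} := by
    ext g
    show (∃ k : ℕ, g ^ (y ^ k) = 1) ↔ ∃ k : ℕ, (g : G) ^ (y ^ k) = 1
    refine exists_congr fun k => ?_
    rw [← Subgroup.coe_pow, OneMemClass.coe_eq_one]
  rw [h2]
  exact h

theorem Ry_ne_bot (G : Type) [Group G] [Finite G] (y : ℕ) (hy : y.Prime) (h : y ∣ Nat.card G) :
    Ry G y ≠ ⊥ := by
  intro h0
  have : Fact y.Prime := ⟨hy⟩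
  obtain ⟨x, hx⟩ := exists_prime_orderOf_dvd_card' y h
  have hmem : x ∈ Ry G y := by
    refine Subgroup.subset_closure ⟨1, ?_⟩
    rw [pow_one, ← hx]
    exact pow_orderOf_eq_one x
  rw [h0, Subgroup.mem_bot] at hmem
  rw [hmem, orderOf_one] at hx
  exact hy.ne_one hx.symm

end Pool.Agent.HSS
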