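import Mathlib
import Pool.Agent.HL.Defs

/-!
# Project HSS (MP_961d7e_lc): Herzog-Schoenheim for solvable groups. Definitions.
-/

set_option autoImplicit false

namespace Pool.Agent.HSS

/-- The proportion of the residues modulo `M` whose greatest common divisor with `M` is `d`
(a divisor of `M`). -/
noncomputable def om (M d : ℕ) : ℝ := ((M / d).totient : ℝ) / (M : ℝ)

open Classical in
/-- The proportion of the residues modulo `M` whose greatest common divisor with `M` is divisible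
by a member of `Q`. -/
noncomputable def del (M : ℕ) (Q : Set ℕ) : ℝ := ∑ d ∈ M.divisors with ∃ q ∈ Q, q ∣ d, om M d

/-- The normalised counting measure of a finite group. -/
noncomputable def mu {G : Type} (S : Set G) : ℝ := (S.ncard : ℝ) / (Nat.card G : ℝ)

/-- The product of `p / (p - 1)`. -/
noncomputable def kap (s : Finset ℕ) : ℝ := ∏ p ∈ s, ((p : ℝ) / ((p : ℝ) - 1))

/-- The subgroup generated by the elements of `y`-power order. -/
def Ry (G : Type) [Group G] (y : ℕ) : Subgroup G := Subgroup.closure {g : G | ∃ k : ℕ, g ^ (y ^ k) = 1}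

/-- The least power of `l` which is `1` modulo `y`. -/
noncomputable def mm (y l : ℕ) : ℕ := l ^ orderOf (l : ZMod y)

/-- The union of the cosets of `H i ⊔ R`, `i ∈ V`. -/
def CC {G ι : Type} [Group G] (R : Subgroup G) (H : ι → Subgroup G) (a : ι → G) (V : Finset ι) :
    Set G := {g : G | ∃ i ∈ V, (a i)⁻¹ * g ∈ H i ⊔ R}

/-- The data which a counterexample gives rise to: `q i = (H i ⊔ R).index`,
`r i = (H i).relIndex R`, `D V = mu (CC R H a V)`. -/
structure Dat (ι : Type) (y e m : ℕ) where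
  U : Finset ι
  q : ι → ℕ
  r : ι → ℕ
  D : Finset ι → ℝ
  w : ℝ
  hne : U.Nonempty
  hw : ∑ i ∈ U, 1 / ((q i : ℝ) * (r i : ℝ)) = w
  hq : ∀ i ∈ U, ¬ y ∣ q i
  hd : ∀ i ∈ U, q i * r i ∣ y ^ e * m
  hinj : ∀ i ∈ U, ∀ j ∈ U, q i * r i = q j * r j → i = j
  hr : ∀ i ∈ U, y ∣ r i ∨ ∃ l ∈ m.primeFactors, mm y l ∣ r i
  hD1 : ∀ V ⊆ U, del (m * ∏ p ∈ m.primeFactors, p) {x | ∃ i ∈ V, x = q i} ≤ D V
  hD2 : ∀ V ⊆ U, D V ≤ w
  hD3 : ∀ V ⊆ U, ∀ V' ⊆ U, (∀ i ∈ V, ∀ j ∈ V', (r i).Coprime (r j)) → D V + D V' ≤ w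

end Pool.Agent.HSS
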