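import Pool.Agent.HSS.Defs
import Pool.Agent.HL.Copr

/-! # Project HSS, row HSS-10: the part of the partition which is not made of `R`-cosets -/

set_option autoImplicit false

namespace Pool.Agent.HSS

/-- a set covered by the cosets with index in `U` -/
theorem geo_bound {G : Type} [Group G] [Finite G] {ι : Type} (H : ι → Subgroup G) (a : ι → G)
    (U : Finset ι) (W : Set G) (hW : ∀ g ∈ W, ∃ i ∈ U, (a i)⁻¹ * g ∈ H i) :
    mu W ≤ ∑ i ∈ U, 1 / ((H i).index : ℝ) := by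
  classical
  have : Fintype G := Fintype.ofFinite G
  have hG : (0 : ℝ) < Nat.card G := by exact_mod_cast Nat.card_pos
  have h1 : W.ncard ≤ ∑ i ∈ U, Nat.card (H i) := by
    have h2 : W ⊆ ((U.biUnion fun i => Finset.univ.image (fun h : H i => a i * (h : G)) :
        Finset G) : Set G) := by
      intro g hg
      obtain ⟨i, hi, h⟩ := hW g hg
      rw [Finset.mem_coe, Finset.mem_biUnion]
      exact ⟨i, hi, Finset.mem_image.2 ⟨⟨(a i)⁻¹ * g, h⟩, Finset.mem_univ _, by simp⟩⟩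
    have h3 := Set.ncard_le_ncard h2
    rw [Set.ncard_coe_finset] at h3
    refine h3.trans (Finset.card_biUnion_le.trans (Finset.sum_le_sum fun i _ => ?_))
    refine Finset.card_image_le.trans ?_
    rw [Finset.card_univ, Nat.card_eq_fintype_card]
  have hi : ∀ i, (1 : ℝ) / ((H i).index : ℝ) = (Nat.card (H i) : ℝ) / Nat.card G := by
    intro i
    have h1 : Nat.card (H i) * (H i).index = Nat.card G := (H i).card_mul_index
    have h2 : ((H i).index : ℝ) ≠ 0 := by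
      exact_mod_cast Subgroup.index_ne_zero_of_finite
    rw [div_eq_div_iff h2 hG.ne', one_mul]
    exact_mod_cast h1.symm
  simp only [hi]
  rw [← Finset.sum_div, ← Nat.cast_sum]
  unfold mu
  exact div_le_div_of_nonneg_right (by exact_mod_cast h1) hG.le

/-- `CC R H a V` is covered by the cosets with index in `U` -/
theorem geo_cover {G : Type} [Group G] (R : Subgroup G) [R.Normal] {ι : Type}
    (H : ι → Subgroup G) (a : ι → G) (hp : ∀ g, ∃! i, (a i)⁻¹ * g ∈ H i) (U V : Finset ι)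
    (hU : ∀ i, i ∈ U ↔ ¬ R ≤ H i) (hV : V ⊆ U) (g : G) (hg : g ∈ CC R H a V) :
    ∃ i ∈ U, (a i)⁻¹ * g ∈ H i := by
  obtain ⟨i, hi, h⟩ := hg
  rw [Subgroup.mem_sup_of_normal_right] at h
  obtain ⟨y, hy, z, hz, hyz⟩ := h
  obtain ⟨j, hj, -⟩ := hp g
  refine ⟨j, ?_, hj⟩
  rw [hU]
  intro hR
  have h1 : (a i)⁻¹ * (g * z⁻¹) ∈ H i := by
    rw [← mul_assoc, ← hyz, mul_inv_cancel_right]
    exact hy
  have h2 : (a j)⁻¹ * (g * z⁻¹) ∈ H j := by
    rw [← mul_assoc]
    exact (H j).mul_mem hj ((H j).inv_mem (hR hz))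
  have h3 : i = j := (hp (g * z⁻¹)).unique h1 h2
  exact (hU i).1 (hV hi) (h3 ▸ hR)

/-- Let `W` be the union of the `a i * H i`, `i ∈ U`. It is the complement of a union of cosets of
`R`, so it contains `CC R H a U`; its measure is the sum on the right. -/
theorem geo1 {G : Type} [Group G] [Finite G] (R : Subgroup G) [R.Normal] {ι : Type} [Fintype ι]
    (H : ι → Subgroup G) (a : ι → G) (hp : ∀ g, ∃! i, (a i)⁻¹ * g ∈ H i) (U V : Finset ι)
    (hU : ∀ i, i ∈ U ↔ ¬ R ≤ H i) (hV : V ⊆ U) :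
    mu (CC R H a V) ≤ ∑ i ∈ U, 1 / ((H i).index : ℝ) :=
  geo_bound H a U _ fun g hg => geo_cover R H a hp U V hU hV g hg

/-- In addition `CC R H a V` and `CC R H a V'` are disjoint (`Pool.Agent.HL.meet_of_coprime_rel`). -/
theorem geo2 {G : Type} [Group G] [Finite G] (R : Subgroup G) [R.Normal] {ι : Type} [Fintype ι]
    (H : ι → Subgroup G) (a : ι → G) (hp : ∀ g, ∃! i, (a i)⁻¹ * g ∈ H i) (U V V' : Finset ι)
    (hU : ∀ i, i ∈ U ↔ ¬ R ≤ H i) (hV : V ⊆ U) (hV' : V' ⊆ U)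
    (hc : ∀ i ∈ V, ∀ j ∈ V', ((H i).relIndex R).Coprime ((H j).relIndex R)) :
    mu (CC R H a V) + mu (CC R H a V') ≤ ∑ i ∈ U, 1 / ((H i).index : ℝ) := by
  have hdis : Disjoint (CC R H a V) (CC R H a V') := by
    rw [Set.disjoint_left]
    rintro g ⟨i, hi, h⟩ ⟨j, hj, h'⟩
    have hs : ∀ k, (a k)⁻¹ * g ∈ H k ⊔ R → ∃ ρ ∈ R, (a k)⁻¹ * (g * ρ) ∈ H k := by
      intro k hk
      rw [Subgroup.mem_sup_of_normal_right] at hk
      obtain ⟨y, hy, z, hz, hyz⟩ := hk
      refine ⟨z⁻¹, R.inv_mem hz, ?_⟩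
      rw [← mul_assoc, ← hyz, mul_inv_cancel_right]
      exact hy
    obtain ⟨ρ, -, h1, h2⟩ := Pool.Agent.HL.meet_of_coprime_rel R (H i) (H j) (hc i hi j hj)
      (a i) (a j) g (hs i h) (hs j h')
    have h3 : i = j := (hp (g * ρ)).unique h1 h2
    subst h3
    have h4 : (H i).relIndex R = 1 := (Nat.coprime_self _).1 (hc i hi i hj)
    exact (hU i).1 (hV hi) (Subgroup.relIndex_eq_one.1 h4)
  have h1 : mu (CC R H a V) + mu (CC R H a V') = mu (CC R H a V ∪ CC R H a V') := by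
    unfold mu
    rw [Set.ncard_union_eq hdis, Nat.cast_add, add_div]
  rw [h1]
  refine geo_bound H a U _ fun g hg => ?_
  rcases hg with hg | hg
  · exact geo_cover R H a hp U V hU hV g hg
  · exact geo_cover R H a hp U V' hU hV' g hg

end Pool.Agent.HSS
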