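import Pool.Agent.HSS.MinN

/-! # Project HSS, row HSS-8: indices in solvable groups generated by `y`-elements -/

set_option autoImplicit false

namespace Pool.Agent.HSS

/-- a normal subgroup of index prime to `y` contains all elements of `y`-power order -/
theorem l3_top {R : Type} [Group R] [Finite R] {y : ℕ} (hy : y.Prime)
    (hR : Subgroup.closure {g : R | ∃ k : ℕ, g ^ (y ^ k) = 1} = ⊤) (N : Subgroup R) [N.Normal]
    (hN : ¬ y ∣ N.index) : N = ⊤ := by
  rw [eq_top_iff, ← hR, Subgroup.closure_le]
  rintro g ⟨k, hk⟩
  have h1 : orderOf (g : R ⧸ N) ∣ y ^ k := by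
    rw [orderOf_dvd_iff_pow_eq_one, ← QuotientGroup.mk_pow, hk, QuotientGroup.mk_one]
  have h2 : orderOf (g : R ⧸ N) ∣ N.index := by
    rw [Subgroup.index_eq_card]
    exact orderOf_dvd_natCard _
  have h3 : Nat.Coprime (y ^ k) N.index := Nat.Coprime.pow_left k ((hy.coprime_iff_not_dvd).2 hN)
  have h4 : orderOf (g : R ⧸ N) = 1 := Nat.eq_one_of_dvd_coprimes h3 h1 h2
  rw [orderOf_eq_one_iff] at h4
  exact (QuotientGroup.eq_one_iff g).1 h4

theorem l3_aux (n : ℕ) : ∀ (R : Type) [Group R] [Finite R] [Group.IsSolvable R] (y : ℕ),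
    Nat.card R = n → y.Prime →
    Subgroup.closure {g : R | ∃ k : ℕ, g ^ (y ^ k) = 1} = ⊤ → ∀ S : Subgroup R, S ≠ ⊤ →
    ¬ y ∣ S.index →
    ∃ l j : ℕ, l.Prime ∧ l ≠ y ∧ 0 < j ∧ l ^ j ≡ 1 [MOD y] ∧ l ^ j ∣ S.index := by
  induction n using Nat.strong_induction_on with
  | _ n ih =>
    intro R _ _ _ y hn hy hR S hS hyS
    haveI : Fact y.Prime := ⟨hy⟩
    have hnt : Nontrivial R := by
      by_contra h
      rw [not_nontrivial_iff_subsingleton] at h
      exact hS (Subsingleton.elim _ _)
    obtain ⟨p, K, hp, hKn, hK, hKp, hKc, hKm⟩ := exists_min_normal R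
    haveI : Fact p.Prime := ⟨hp⟩
    by_cases hKS : K ⊔ S = ⊤
    · -- the complement case
      have hle : ¬ K ≤ S := by
        intro h
        rw [sup_eq_right.2 h] at hKS
        exact hS hKS
      have hnorm : (K ⊓ S).Normal := by
        constructor
        intro x hx g
        have hg : g ∈ K ⊔ S := by rw [hKS]; exact Subgroup.mem_top g
        rw [Subgroup.mem_sup_of_normal_left] at hg
        obtain ⟨k, hk, s, hs, rfl⟩ := hg
        have h1 : s * x * s⁻¹ ∈ K := hKn.conj_mem x hx.1 s
        have h2 : s * x * s⁻¹ ∈ S := S.mul_mem (S.mul_mem hs hx.2) (S.inv_mem hs)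
        have h3 : k * s * x * (k * s)⁻¹ = s * x * s⁻¹ := by
          have h4 := hKc k hk _ h1
          calc k * s * x * (k * s)⁻¹ = k * (s * x * s⁻¹) * k⁻¹ := by group
            _ = s * x * s⁻¹ * k * k⁻¹ := by rw [h4]
            _ = s * x * s⁻¹ := by group
        rw [h3]
        exact ⟨h1, h2⟩
      have hbot : K ⊓ S = ⊥ := by
        rcases hKm _ hnorm inf_le_left with h | h
        · exact h
        · exact absurd (inf_eq_left.1 h) hle
      have hcomp : Subgroup.IsComplement' K S := by
        apply Subgroup.isComplement'_of_disjoint_and_mul_eq_univ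
        · rw [disjoint_iff]; exact hbot
        · rw [← Subgroup.normal_mul, hKS]
          rfl
      have hidx : S.index = Nat.card K := hcomp.index_eq_card
      obtain ⟨c, hc⟩ := IsPGroup.iff_card.1 hKp
      rw [hc] at hidx
      have hc0 : c ≠ 0 := by
        rintro rfl
        rw [pow_zero] at hc
        exact hK (Subgroup.card_eq_one.1 hc)
      have hpy : p ≠ y := by
        rintro rfl
        rw [hidx] at hyS
        exact hyS (dvd_pow_self p hc0)
      -- the Sylow subgroup
      obtain ⟨P⟩ : Nonempty (Sylow y S) := inferInstance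
      set Y : Subgroup R := (P : Subgroup S).map S.subtype with hY
      have hYp : IsPGroup y Y := P.isPGroup'.map _
      have hYi : ¬ y ∣ Y.index := by
        have h1 : Y.index = (P : Subgroup S).index * S.index := by
          rw [hY, Subgroup.index_map_subtype]
        rw [h1]
        intro h
        rcases hy.dvd_mul.1 h with h | h
        · exact P.not_dvd_index h
        · exact hyS h
      letI act : MulAction Y K :=
        MulAction.compHom K ((MulAut.conjNormal (H := K)).comp Y.subtype)
      have hact : ∀ (g : Y) (x : K), ((g • x : K) : R) = g * x * (g : R)⁻¹ := fun g x => by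
        show (((MulAut.conjNormal (H := K)) (g : R) x : K) : R) = _
        rw [MulAut.conjNormal_apply]
      have hmod : Nat.card K ≡ Nat.card (MulAction.fixedPoints Y K) [MOD y] :=
        hYp.card_modEq_card_fixedPoints K
      set C : Subgroup K := (Subgroup.centralizer (Y : Set R)).subgroupOf K with hC
      have hfix : Nat.card (MulAction.fixedPoints Y K) = Nat.card C := by
        have h1 : (MulAction.fixedPoints Y K : Set K) = (C : Set K) := by
          ext x
          rw [MulAction.mem_fixedPoints, SetLike.mem_coe, hC, Subgroup.mem_subgroupOf,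
            Subgroup.mem_centralizer_iff]
          constructor
          · intro h g hg
            have h2 := congrArg (fun z : K => (z : R)) (h ⟨g, hg⟩)
            simp only [hact] at h2
            rw [mul_inv_eq_iff_eq_mul] at h2
            exact h2
          · intro h g
            apply Subtype.ext
            rw [hact, mul_inv_eq_iff_eq_mul]
            exact h g g.2
        have h2 : (MulAction.fixedPoints Y K : Set K).ncard = (C : Set K).ncard := by rw [h1]
        rwa [← Nat.card_coe_set_eq, ← Nat.card_coe_set_eq] at h2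
      have hdv : Nat.card C ∣ p ^ c := by
        rw [← hc]; exact Subgroup.card_subgroup_dvd_card C
      obtain ⟨c0, hc0c, hCc⟩ := (Nat.dvd_prime_pow hp).1 hdv
      rw [hc, hfix, hCc] at hmod
      rcases Nat.lt_or_ge c0 c with hlt | hge
      · refine ⟨p, c - c0, hp, hpy, by omega, ?_, ?_⟩
        · have h1 : p ^ c0 * p ^ (c - c0) ≡ p ^ c0 * 1 [MOD y] := by
            rw [← pow_add, Nat.add_sub_cancel' hlt.le, mul_one]
            exact hmod
          refine Nat.ModEq.cancel_left_of_coprime ?_ h1
          exact Nat.Coprime.pow_right c0 ((Nat.coprime_primes hy hp).2 (Ne.symm hpy))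
        · rw [hidx]
          exact pow_dvd_pow p (Nat.sub_le c c0)
      · exfalso
        have hcc : c0 = c := le_antisymm hc0c hge
        have hCtop : C = ⊤ := by
          apply Subgroup.eq_top_of_card_eq
          rw [hCc, hcc, hc]
        have hYK : Y ≤ Subgroup.centralizer (K : Set R) := by
          intro g hg
          rw [Subgroup.mem_centralizer_iff]
          intro x hx
          have h1 : (⟨x, hx⟩ : K) ∈ C := by rw [hCtop]; exact Subgroup.mem_top _
          rw [hC, Subgroup.mem_subgroupOf, Subgroup.mem_centralizer_iff] at h1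
          exact (h1 g hg).symm
        have hZn : (Subgroup.centralizer (K : Set R)).Normal := Subgroup.normal_centralizer
        have hZ : Subgroup.centralizer (K : Set R) = ⊤ := by
          refine l3_top hy hR _ fun h => hYi (h.trans ?_)
          exact Subgroup.index_dvd_of_le hYK
        have hSn : S.Normal := by
          constructor
          intro x hx g
          have hg : g ∈ K ⊔ S := by rw [hKS]; exact Subgroup.mem_top g
          rw [Subgroup.mem_sup_of_normal_left] at hg
          obtain ⟨k, hk, s, hs, rfl⟩ := hg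
          have h2 : s * x * s⁻¹ ∈ S := S.mul_mem (S.mul_mem hs hx) (S.inv_mem hs)
          have h5 : (s * x * s⁻¹) ∈ Subgroup.centralizer (K : Set R) := by
            rw [hZ]; exact Subgroup.mem_top _
          rw [Subgroup.mem_centralizer_iff] at h5
          have h4 := h5 k hk
          have h3 : k * s * x * (k * s)⁻¹ = s * x * s⁻¹ := by
            calc k * s * x * (k * s)⁻¹ = k * (s * x * s⁻¹) * k⁻¹ := by group
              _ = s * x * s⁻¹ * k * k⁻¹ := by rw [h4]
              _ = s * x * s⁻¹ := by group
          rw [h3]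
          exact h2
        exact hS (l3_top hy hR S hyS)
    · -- the quotient case
      have hcard : Nat.card (R ⧸ K) < n := by
        have h1 := Subgroup.card_eq_card_quotient_mul_card_subgroup K
        have h2 : 1 < Nat.card K := by
          rw [Subgroup.one_lt_card_iff_ne_bot]
          exact hK
        have h3 : 0 < Nat.card (R ⧸ K) := Nat.card_pos
        rw [← hn, h1]
        nlinarith
      have hcl : Subgroup.closure {g : R ⧸ K | ∃ k : ℕ, g ^ (y ^ k) = 1} = ⊤ := by
        rw [eq_top_iff]
        have h1 : (⊤ : Subgroup (R ⧸ K)) = (⊤ : Subgroup R).map (QuotientGroup.mk' K) := by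
          rw [Subgroup.map_top_of_surjective _ (QuotientGroup.mk'_surjective K)]
        rw [h1, ← hR, MonoidHom.map_closure]
        apply Subgroup.closure_mono
        rintro _ ⟨g, ⟨k, hk⟩, rfl⟩
        refine ⟨k, ?_⟩
        rw [← map_pow, hk, map_one]
      have hmapne : S.map (QuotientGroup.mk' K) ≠ ⊤ := by
        intro h
        have h1 := congrArg (Subgroup.comap (QuotientGroup.mk' K)) h
        rw [Subgroup.comap_map_eq, QuotientGroup.ker_mk', Subgroup.comap_top] at h1
        exact hKS (by rw [sup_comm]; exact h1)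
      have hidx : (S.map (QuotientGroup.mk' K)).index ∣ S.index := by
        rw [Subgroup.index_map, QuotientGroup.ker_mk',
          MonoidHom.range_eq_top.2 (QuotientGroup.mk'_surjective K), Subgroup.index_top, mul_one]
        exact Subgroup.index_dvd_of_le le_sup_left
      obtain ⟨l, j, hl, hly, hj, hm, hd⟩ := ih _ hcard (R ⧸ K) y rfl hy hcl
        (S.map (QuotientGroup.mk' K)) hmapne fun h => hyS (h.trans hidx)
      exact ⟨l, j, hl, hly, hj, hm, hd.trans hidx⟩

/-- Strong induction on the order. `K` minimal normal, an `l`-group. `K ⊔ S ≠ ⊤`: pass to `R ⧸ K`.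
`K ⊔ S = ⊤`: `K ⊓ S` is normal, so `K ⊓ S = ⊥`, `S.index = |K| = l ^ c`, a Sylow `y`-subgroup `Y` of
`S` is one of `R` and acts on `K` by conjugation, `|K| ≡ |C_K(Y)|` modulo `y`. If `C_K(Y) = K` then
the centraliser of `K` contains all elements of `y`-power order, so `K` is central, `S` is normal
and contains all elements of `y`-power order, contradiction. Otherwise `|C_K(Y)| = l ^ c0`,
`c0 < c`, `j = c - c0`. -/
theorem l3 (R : Type) [Group R] [Finite R] [Group.IsSolvable R] (y : ℕ) (hy : y.Prime)
    (hR : Subgroup.closure {g : R | ∃ k : ℕ, g ^ (y ^ k) = 1} = ⊤) (S : Subgroup R) (hS : S ≠ ⊤)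
    (hyS : ¬ y ∣ S.index) :
    ∃ l j : ℕ, l.Prime ∧ l ≠ y ∧ 0 < j ∧ l ^ j ≡ 1 [MOD y] ∧ l ^ j ∣ S.index :=
  l3_aux _ R y rfl hy hR S hS hyS

end Pool.Agent.HSS
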