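import Pool.Agent.HSS.Rog
import Pool.Agent.HSS.LThree
import Pool.Agent.HSS.Core
import Pool.Agent.HSS.Geo
import Pool.Agent.HL.Wts

/-! # Project HSS, row HSS-18: the data of a counterexample -/

set_option autoImplicit false

namespace Pool.Agent.HSS

theorem mk_hr {G : Type} [Group G] [Finite G] [Group.IsSolvable G] (y e m : ℕ) (hy : y.Prime)
    (hG : Nat.card G = y ^ e * m) (H : Subgroup G) (hH : ¬ Ry G y ≤ H) :
    y ∣ H.relIndex (Ry G y) ∨ ∃ l ∈ m.primeFactors, mm y l ∣ H.relIndex (Ry G y) := by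
  by_cases hyd : y ∣ H.relIndex (Ry G y)
  · exact Or.inl hyd
  · right
    have hS : H.subgroupOf (Ry G y) ≠ ⊤ := fun h => hH (Subgroup.subgroupOf_eq_top.mp h)
    obtain ⟨l, j, hl, hly, hj, hmod, hdvd⟩ := l3 (Ry G y) y hy (Ry_top G y)
      (H.subgroupOf (Ry G y)) hS hyd
    have hdvd' : l ^ j ∣ H.relIndex (Ry G y) := hdvd
    have hcard : H.relIndex (Ry G y) ∣ Nat.card G := by
      refine (Subgroup.index_dvd_card (H.subgroupOf (Ry G y))).trans ?_
      exact Subgroup.card_subgroup_dvd_card (Ry G y)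
    have hm : m ≠ 0 := by
      rintro rfl
      rw [mul_zero] at hG
      exact Nat.card_pos.ne' hG
    have hlm : l ∣ m := by
      have h1 : l ∣ y ^ e * m := by
        rw [← hG]
        exact ((dvd_pow_self l hj.ne').trans hdvd').trans hcard
      rcases hl.dvd_mul.mp h1 with h | h
      · exact absurd ((Nat.prime_dvd_prime_iff_eq hl hy).mp (hl.dvd_of_dvd_pow h)) hly
      · exact h
    refine ⟨l, Nat.mem_primeFactors.mpr ⟨hl, hlm, hm⟩, ?_⟩
    have hord : orderOf (l : ZMod y) ∣ j := by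
      apply orderOf_dvd_of_pow_eq_one
      have h1 := (ZMod.natCast_eq_natCast_iff (l ^ j) 1 y).mpr hmod
      rwa [Nat.cast_pow, Nat.cast_one] at h1
    exact (pow_dvd_pow l (Nat.le_of_dvd hj hord)).trans hdvd'

/-- `R = Ry G y`, `U` the set of the `i` with `¬ R ≤ H i`, `q i = (H i ⊔ R).index`,
`r i = (H i).relIndex R`, `D V = mu (CC R H a V)`, `w` the sum over `U`. `hr`: `l3` for the group `R`
and `S = (H i).subgroupOf R`; `orderOf (l : ZMod y) ∣ j`; `l ∣ r i ∣ Nat.card G`. `hD1`: `rogers` for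
`G`, the subtype of `V` and the subgroups `H i ⊔ R`. `hD2`, `hD3`: `geo1`, `geo2`. -/
theorem mk_dat (G : Type) [Group G] [Finite G] [Group.IsSolvable G] (y e m : ℕ) (hy : y.Prime)
    (hG : Nat.card G = y ^ e * m) (hym : ¬ y ∣ m) {ι : Type} [Fintype ι] (H : ι → Subgroup G)
    (a : ι → G) (hp : ∀ g, ∃! i, (a i)⁻¹ * g ∈ H i)
    (hinj : ∀ i j, (H i).index = (H j).index → i = j) (hU : ∃ i, ¬ Ry G y ≤ H i) :
    Nonempty (Dat ι y e m) := by
  classical
  haveI : (Ry G y).Normal := Ry_normal G y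
  have hUm : ∀ i, i ∈ Finset.univ.filter (fun i => ¬ Ry G y ≤ H i) ↔ ¬ Ry G y ≤ H i := fun i => by
    rw [Finset.mem_filter]
    exact ⟨fun h => h.2, fun h => ⟨Finset.mem_univ _, h⟩⟩
  have hidx : ∀ i, (H i).index = (H i ⊔ Ry G y).index * (H i).relIndex (Ry G y) := fun i =>
    Pool.Agent.HL.index_mul (H i) (Ry G y)
  have hm : m ≠ 0 := by
    rintro rfl
    exact hym (dvd_zero y)
  have hM : m * ∏ p ∈ m.primeFactors, p ≠ 0 := by
    refine mul_ne_zero hm (Finset.prod_ne_zero_iff.mpr (fun p hp => ?_))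
    exact (Nat.prime_of_mem_primeFactors hp).ne_zero
  refine ⟨{ U := Finset.univ.filter (fun i => ¬ Ry G y ≤ H i)
            q := fun i => (H i ⊔ Ry G y).index
            r := fun i => (H i).relIndex (Ry G y)
            D := fun V => mu (CC (Ry G y) H a V)
            w := ∑ i ∈ Finset.univ.filter (fun i => ¬ Ry G y ≤ H i), 1 / ((H i).index : ℝ)
            hne := ?_
            hw := ?_
            hq := ?_
            hd := ?_
            hinj := ?_
            hr := ?_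
            hD1 := ?_
            hD2 := ?_
            hD3 := ?_ }⟩
  · obtain ⟨i, hi⟩ := hU
    exact ⟨i, (hUm i).mpr hi⟩
  · refine Finset.sum_congr rfl (fun i _ => ?_)
    rw [hidx i, Nat.cast_mul]
  · intro i _ hdvd
    exact Ry_index G y hy (hdvd.trans (Subgroup.index_dvd_of_le le_sup_right))
  · intro i _
    rw [← hidx i, ← hG]
    exact Subgroup.index_dvd_card (H i)
  · intro i _ j _ hij
    apply hinj
    rw [hidx i, hidx j]
    exact hij
  · intro i hi
    exact mk_hr y e m hy hG (H i) ((hUm i).mp hi)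
  · intro V _
    have h := rogers G (ι := {i // i ∈ V}) (fun i => H i.1 ⊔ Ry G y) (fun i => a i.1)
      (m * ∏ p ∈ m.primeFactors, p) hM
    have h1 : {x | ∃ i : {i // i ∈ V}, x = (H i.1 ⊔ Ry G y).index} =
        {x | ∃ i ∈ V, x = (H i ⊔ Ry G y).index} := by
      ext x
      exact ⟨fun ⟨i, hi⟩ => ⟨i.1, i.2, hi⟩, fun ⟨i, hiV, hi⟩ => ⟨⟨i, hiV⟩, hi⟩⟩
    have h2 : {g : G | ∃ i : {i // i ∈ V}, (a i.1)⁻¹ * g ∈ H i.1 ⊔ Ry G y} =
        CC (Ry G y) H a V := by
      ext g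
      exact ⟨fun ⟨i, hi⟩ => ⟨i.1, i.2, hi⟩, fun ⟨i, hiV, hi⟩ => ⟨⟨i, hiV⟩, hi⟩⟩
    rw [h1, h2] at h
    exact h
  · intro V hV
    exact geo1 (Ry G y) H a hp _ V hUm hV
  · intro V hV V' hV' hc
    exact geo2 (Ry G y) H a hp _ V V' hUm hV hV' hc

end Pool.Agent.HSS
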