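import Pool.Agent.HSS.Defs

/-! # Project HSS, row HSS-13: a bound for the sum of the inverses of the `mm y l` -/

set_option autoImplicit false

namespace Pool.Agent.HSS

/-- The sum of an antitone function over a finite set of positive integers is at most the sum over
the first positive integers. -/
theorem sum_anti (f : ℕ → ℝ) (hf : Antitone f) (c : ℕ) :
    ∀ T : Finset ℕ, T.card = c → (∀ t ∈ T, 1 ≤ t) →
      ∑ t ∈ T, f t ≤ ∑ k ∈ Finset.range c, f (k + 1) := by
  induction c with
  | zero =>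
    intro T hT _
    rw [Finset.card_eq_zero.mp hT]
    simp
  | succ c ih =>
    intro T hT h1
    have hne : T.Nonempty := by
      rw [← Finset.card_pos, hT]
      exact Nat.succ_pos c
    set M := T.max' hne with hM
    have hMT : M ∈ T := Finset.max'_mem T hne
    have hcard : (T.erase M).card = c := by
      rw [Finset.card_erase_of_mem hMT, hT]
      rfl
    have hle : c + 1 ≤ M := by
      have hsub : T ⊆ Finset.Icc 1 M := by
        intro t ht
        exact Finset.mem_Icc.mpr ⟨h1 t ht, Finset.le_max' T t ht⟩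
      have := Finset.card_le_card hsub
      rw [hT, Nat.card_Icc] at this
      simpa using this
    have h := ih (T.erase M) hcard (fun t ht => h1 t (Finset.mem_of_mem_erase ht))
    rw [← Finset.sum_erase_add T f hMT, Finset.sum_range_succ]
    exact add_le_add h (hf hle)

/-- The power `mm y l` is congruent to `1` modulo `y`. -/
theorem mm_modEq (y l : ℕ) : mm y l ≡ 1 [MOD y] := by
  rw [← ZMod.natCast_eq_natCast_iff]
  unfold mm
  push_cast
  exact pow_orderOf_eq_one _

/-- The order of `l` modulo `y` is positive when `l` is not divisible by the prime `y`. -/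
theorem ord_pos (y l : ℕ) (hy : y.Prime) (hl : l.Prime) (h : l < y) :
    0 < orderOf (l : ZMod y) := by
  haveI : Fact y.Prime := ⟨hy⟩
  have h0 : (l : ZMod y) ≠ 0 := by
    rw [Ne, ZMod.natCast_eq_zero_iff]
    intro hd
    exact absurd (Nat.le_of_dvd hl.pos hd) (not_le.mpr h)
  apply orderOf_pos_iff.mpr
  exact isOfFinOrder_iff_pow_eq_one.mpr ⟨y - 1, Nat.sub_pos_of_lt hy.one_lt,
    ZMod.pow_card_sub_one_eq_one h0⟩

theorem mm_gt (y l : ℕ) (hy : y.Prime) (hl : l.Prime) (h : l < y) : 1 < mm y l :=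
  Nat.one_lt_pow (ord_pos y l hy hl h).ne' hl.one_lt

theorem mm_inj (y l l' : ℕ) (hy : y.Prime) (hl : l.Prime) (h : l < y) (hl' : l'.Prime)
    (he : mm y l = mm y l') : l = l' := by
  have h1 : l ∣ mm y l := dvd_pow_self l (ord_pos y l hy hl h).ne'
  rw [he] at h1
  exact (Nat.prime_dvd_prime_iff_eq hl hl').mp (hl.dvd_of_dvd_pow h1)

/-- The numbers `mm y l` are distinct, larger than `1`, congruent to `1` modulo `y`, and for odd `l`
odd, so congruent to `1` modulo `2 * y`. -/
theorem sum_mm (y : ℕ) (hy : y.Prime) (hy3 : 3 ≤ y) (s : Finset ℕ) (hs : ∀ p ∈ s, p.Prime ∧ p < y)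
    (n : ℕ) (hn : (s.erase 2).card ≤ n) :
    ∑ l ∈ s, 1 / (mm y l : ℝ) ≤ 1 / ((y : ℝ) + 1) +
      ∑ k ∈ Finset.range n, 1 / (2 * ((k : ℝ) + 1) * (y : ℝ) + 1) := by
  have hy0 : (0 : ℝ) < y := by exact_mod_cast hy.pos
  -- the odd part
  have hodd : ∑ l ∈ s.erase 2, 1 / (mm y l : ℝ) ≤
      ∑ k ∈ Finset.range n, 1 / (2 * ((k : ℝ) + 1) * (y : ℝ) + 1) := by
    have hyodd : Odd y := hy.odd_of_ne_two (by omega)
    have hmem : ∀ l ∈ s.erase 2, l.Prime ∧ l < y ∧ l ≠ 2 := by
      intro l hl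
      rw [Finset.mem_erase] at hl
      exact ⟨(hs l hl.2).1, (hs l hl.2).2, hl.1⟩
    -- each value is `2 * y * t + 1`
    have hrep : ∀ l ∈ s.erase 2, mm y l = 2 * y * ((mm y l - 1) / (2 * y)) + 1 ∧
        1 ≤ (mm y l - 1) / (2 * y) := by
      intro l hl
      obtain ⟨hp, hlt, h2⟩ := hmem l hl
      have h1 := mm_gt y l hy hp hlt
      have hdy : y ∣ mm y l - 1 := (Nat.modEq_iff_dvd' h1.le).mp (mm_modEq y l).symm
      have hd2 : 2 ∣ mm y l - 1 := by
        have ho : Odd (mm y l) := (hp.odd_of_ne_two h2).pow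
        obtain ⟨c, hc⟩ := ho
        exact ⟨c, by omega⟩
      have hcop : Nat.Coprime 2 y := (Nat.coprime_two_left).mpr hyodd
      have hd : 2 * y ∣ mm y l - 1 := hcop.mul_dvd_of_dvd_of_dvd hd2 hdy
      constructor
      · rw [Nat.mul_div_cancel' hd]
        omega
      · exact Nat.div_pos (Nat.le_of_dvd (by omega) hd) (by have := hy.pos; omega)
    have hinj : Set.InjOn (fun l => (mm y l - 1) / (2 * y)) (s.erase 2 : Finset ℕ) := by
      intro l hl l' hl' he
      have hl0 : l ∈ s.erase 2 := hl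
      have hl0' : l' ∈ s.erase 2 := hl'
      simp only at he
      apply mm_inj y l l' hy (hmem l hl0).1 (hmem l hl0).2.1 (hmem l' hl0').1
      rw [(hrep l hl0).1, (hrep l' hl0').1, he]
    let f : ℕ → ℝ := fun t => 1 / (2 * (t : ℝ) * (y : ℝ) + 1)
    have hf : Antitone f := by
      intro a b hab
      have hab' : (a : ℝ) ≤ b := by exact_mod_cast hab
      have ha0 : (0 : ℝ) ≤ a := Nat.cast_nonneg a
      apply one_div_le_one_div_of_le
      · positivity
      · nlinarith
    have hsum : ∑ l ∈ s.erase 2, 1 / (mm y l : ℝ) =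
        ∑ t ∈ (s.erase 2).image (fun l => (mm y l - 1) / (2 * y)), f t := by
      rw [Finset.sum_image hinj]
      apply Finset.sum_congr rfl
      intro l hl
      have h := (hrep l hl).1
      have h' : (mm y l : ℝ) = 2 * (y : ℝ) * (((mm y l - 1) / (2 * y) : ℕ) : ℝ) + 1 := by
        exact_mod_cast h
      show 1 / (mm y l : ℝ) = 1 / (2 * (((mm y l - 1) / (2 * y) : ℕ) : ℝ) * (y : ℝ) + 1)
      rw [h']
      congr 2
      have e : ((2 * (y : ℝ) * (((mm y l - 1) / (2 * y) : ℕ) : ℝ) + 1)) =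
        (mm y l : ℝ) := h'.symm
      ring
    rw [hsum]
    have h1 := sum_anti f hf ((s.erase 2).card)
      ((s.erase 2).image (fun l => (mm y l - 1) / (2 * y)))
      (Finset.card_image_of_injOn hinj)
      (by
        intro t ht
        obtain ⟨l, hl, rfl⟩ := Finset.mem_image.mp ht
        exact (hrep l hl).2)
    refine h1.trans ?_
    have h2 : ∑ k ∈ Finset.range (s.erase 2).card, f (k + 1) ≤
        ∑ k ∈ Finset.range n, f (k + 1) := by
      apply Finset.sum_le_sum_of_subset_of_nonneg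
      · exact Finset.range_mono hn
      · intro k _ _
        show 0 ≤ 1 / (2 * ((k + 1 : ℕ) : ℝ) * (y : ℝ) + 1)
        positivity
    refine h2.trans (le_of_eq ?_)
    apply Finset.sum_congr rfl
    intro k _
    show 1 / (2 * ((k + 1 : ℕ) : ℝ) * (y : ℝ) + 1) = 1 / (2 * ((k : ℝ) + 1) * (y : ℝ) + 1)
    push_cast
    rfl
  by_cases h2 : 2 ∈ s
  · rw [← Finset.add_sum_erase s _ h2]
    have h3 : 1 / (mm y 2 : ℝ) ≤ 1 / ((y : ℝ) + 1) := by
      have h1 := mm_gt y 2 hy Nat.prime_two (hs 2 h2).2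
      have hdy : y ∣ mm y 2 - 1 := (Nat.modEq_iff_dvd' h1.le).mp (mm_modEq y 2).symm
      have hle := Nat.le_of_dvd (by omega) hdy
      have hle' : y + 1 ≤ mm y 2 := by omega
      have hle'' : (y : ℝ) + 1 ≤ (mm y 2 : ℝ) := by exact_mod_cast hle'
      exact one_div_le_one_div_of_le (by positivity) hle''
    exact add_le_add h3 hodd
  · rw [Finset.erase_eq_of_notMem h2] at hodd
    have h4 : (0 : ℝ) ≤ 1 / ((y : ℝ) + 1) := by positivity
    linarith

end Pool.Agent.HSS
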