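import Pool.Agent.HSS.Defs

/-! # Project HSS, row HSS-1: the weights -/

set_option autoImplicit false

namespace Pool.Agent.HSS

theorem om_nonneg (M d : ℕ) : 0 ≤ om M d :=
  div_nonneg (Nat.cast_nonneg _) (Nat.cast_nonneg _)

/-- (substitute `d = q * c`, `c ∣ M / q`; the sum of the totients of the divisors of `M / q`) -/
theorem sum_om (M q : ℕ) (hM : M ≠ 0) (hq : q ∣ M) :
    ∑ d ∈ M.divisors with q ∣ d, om M d = 1 / (q : ℝ) := by
  obtain ⟨N, rfl⟩ := hq
  have hq0 : q ≠ 0 := left_ne_zero_of_mul hM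
  have hN0 : N ≠ 0 := right_ne_zero_of_mul hM
  have h1 : ∑ d ∈ (q * N).divisors with q ∣ d, om (q * N) d =
      ∑ c ∈ N.divisors, ((N / c).totient : ℝ) / ((q * N : ℕ) : ℝ) := by
    refine Finset.sum_bij' (fun d _ => d / q) (fun c _ => q * c) ?_ ?_ ?_ ?_ ?_
    · intro d hd
      rw [Finset.mem_filter, Nat.mem_divisors] at hd
      obtain ⟨⟨h2, -⟩, c, rfl⟩ := hd
      rw [Nat.mul_div_cancel_left c (Nat.pos_of_ne_zero hq0), Nat.mem_divisors]
      exact ⟨Nat.dvd_of_mul_dvd_mul_left (Nat.pos_of_ne_zero hq0) h2, hN0⟩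
    · intro c hc
      rw [Nat.mem_divisors] at hc
      rw [Finset.mem_filter, Nat.mem_divisors]
      exact ⟨⟨Nat.mul_dvd_mul_left q hc.1, hM⟩, Dvd.intro c rfl⟩
    · intro d hd
      rw [Finset.mem_filter] at hd
      exact Nat.mul_div_cancel' hd.2
    · intro c _
      exact Nat.mul_div_cancel_left c (Nat.pos_of_ne_zero hq0)
    · intro d hd
      rw [Finset.mem_filter, Nat.mem_divisors] at hd
      obtain ⟨-, c, rfl⟩ := hd
      unfold om
      rw [Nat.mul_div_cancel_left c (Nat.pos_of_ne_zero hq0),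
        Nat.mul_div_mul_left N c (Nat.pos_of_ne_zero hq0)]
  rw [h1, ← Finset.sum_div]
  have h2 : ∑ c ∈ N.divisors, ((N / c).totient : ℝ) = (N : ℝ) := by
    have h3 : ∑ c ∈ N.divisors, (N / c).totient = N := by
      rw [Nat.sum_div_divisors N (fun m => m.totient)]
      exact Nat.sum_totient N
    exact_mod_cast h3
  rw [h2, Nat.cast_mul]
  have hq1 : (q : ℝ) ≠ 0 := Nat.cast_ne_zero.2 hq0
  have hN1 : (N : ℝ) ≠ 0 := Nat.cast_ne_zero.2 hN0
  field_simp

theorem del_nonneg (M : ℕ) (Q : Set ℕ) : 0 ≤ del M Q :=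
  Finset.sum_nonneg fun d _ => om_nonneg M d

theorem del_mono (M : ℕ) (Q Q' : Set ℕ) (h : ∀ q ∈ Q, ∃ q' ∈ Q', q' ∣ q) : del M Q ≤ del M Q' := by
  classical
  unfold del
  refine Finset.sum_le_sum_of_subset_of_nonneg ?_ fun d _ _ => om_nonneg M d
  intro d hd
  rw [Finset.mem_filter] at hd ⊢
  obtain ⟨h1, q, hq, hqd⟩ := hd
  obtain ⟨q', hq', hqq⟩ := h q hq
  exact ⟨h1, q', hq', hqq.trans hqd⟩

theorem del_one (M : ℕ) (hM : M ≠ 0) (Q : Set ℕ) (h : 1 ∈ Q) : del M Q = 1 := by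
  classical
  have h1 := sum_om M 1 hM (one_dvd M)
  rw [Nat.cast_one, div_one] at h1
  rw [← h1]
  unfold del
  refine Finset.sum_congr ?_ fun _ _ => rfl
  ext d
  rw [Finset.mem_filter, Finset.mem_filter]
  exact ⟨fun h2 => ⟨h2.1, one_dvd d⟩, fun h2 => ⟨h2.1, 1, h, one_dvd d⟩⟩

theorem del_empty (M : ℕ) : del M ∅ = 0 := by
  classical
  unfold del
  refine Finset.sum_eq_zero fun d hd => ?_
  rw [Finset.mem_filter] at hd
  obtain ⟨-, q, hq, -⟩ := hd
  exact absurd hq (Set.notMem_empty q)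

theorem del_pos (M : ℕ) (hM : M ≠ 0) (Q : Set ℕ) (q : ℕ) (hq : q ∈ Q) (hqM : q ∣ M) :
    0 < del M Q := by
  classical
  have h1 := sum_om M q hM hqM
  have hq0 : 0 < q := Nat.pos_of_dvd_of_pos hqM (Nat.pos_of_ne_zero hM)
  have h2 : (0 : ℝ) < 1 / (q : ℝ) := by
    have : (0 : ℝ) < q := Nat.cast_pos.2 hq0
    positivity
  rw [← h1] at h2
  refine lt_of_lt_of_le h2 ?_
  unfold del
  refine Finset.sum_le_sum_of_subset_of_nonneg ?_ fun d _ _ => om_nonneg M d
  intro d hd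
  rw [Finset.mem_filter] at hd ⊢
  exact ⟨hd.1, q, hq, hd.2⟩

theorem del_le_sum (M : ℕ) (hM : M ≠ 0) (S : Finset ℕ) :
    del M (S : Set ℕ) ≤ ∑ q ∈ S, 1 / (q : ℝ) := by
  classical
  have h1 : ∀ q ∈ S, ∑ d ∈ M.divisors with q ∣ d, om M d ≤ 1 / (q : ℝ) := by
    intro q _
    by_cases hq : q ∣ M
    · exact (sum_om M q hM hq).le
    · have h2 : ∑ d ∈ M.divisors with q ∣ d, om M d = 0 := by
        refine Finset.sum_eq_zero fun d hd => ?_
        rw [Finset.mem_filter, Nat.mem_divisors] at hd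
        exact absurd (hd.2.trans hd.1.1) hq
      rw [h2]
      positivity
  refine le_trans ?_ (Finset.sum_le_sum h1)
  unfold del
  rw [Finset.sum_filter]
  have h3 : ∑ q ∈ S, ∑ d ∈ M.divisors with q ∣ d, om M d =
      ∑ d ∈ M.divisors, ∑ q ∈ S, if q ∣ d then om M d else 0 := by
    rw [Finset.sum_comm]
    exact Finset.sum_congr rfl fun q _ => Finset.sum_filter _ _
  rw [h3]
  refine Finset.sum_le_sum fun d _ => ?_
  have h4 : ∀ q ∈ S, (0 : ℝ) ≤ if q ∣ d then om M d else 0 := by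
    intro q _
    split_ifs
    · exact om_nonneg M d
    · exact le_rfl
  by_cases h5 : ∃ q ∈ (S : Set ℕ), q ∣ d
  · rw [if_pos h5]
    obtain ⟨q, hq, hqd⟩ := h5
    have h6 := Finset.single_le_sum h4 (Finset.mem_coe.1 hq)
    rw [if_pos hqd] at h6
    exact h6
  · rw [if_neg h5]
    exact Finset.sum_nonneg h4

end Pool.Agent.HSS
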